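import Pool.Agent.N20.AE.Stm
import Pool.Agent.Y858.NV.Wdef

/-!
Project AE, part MM: the min-max theorem for defect groups.
-/

set_option autoImplicit false

open scoped Classical BigOperators Pointwise

noncomputable section

namespace Pool.Agent.N457.AE

open Pool.Agent.Y63.NV
open Pool.Agent.Y63.KR
open Pool.Agent.Y405.NV
open Pool.Agent.Y858.NV (card_cent_conj classValue_conj classValue_one isClassFun_conj)
open Pool.Agent.N20.AE

section cls

variable {F : Type} [Field F] {H : Type} [Group H] [Finite H]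

theorem cl_add {f g : H → F} (hf : IsClassFun f) (hg : IsClassFun g) : IsClassFun (f + g) :=
  fun a x => by rw [Pi.add_apply, Pi.add_apply, hf, hg]

theorem cl_smul (a : F) {f : H → F} (hf : IsClassFun f) : IsClassFun (a • f) :=
  fun b x => by rw [Pi.smul_apply, Pi.smul_apply, hf]

theorem cl_conv {f g : H → F} (hf : IsClassFun f) (hg : IsClassFun g) :
    IsClassFun (conv f g) := by
  have h := (class_iff (ofC f hf * ofC g hg).1).mp (ofC f hf * ofC g hg).2
  have h2 : (fun x => (ofC f hf * ofC g hg).1.coeff x) = conv f g := coeff_mul_eq _ _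
  rwa [h2] at h

/-- expansion in class sums -/
theorem expand {B : (H → F) → F} (hB : IsBlock B) {w : H → F} (hw : IsClassFun w) (h0 : B w ≠ 0) :
    ∃ u, w u ≠ 0 ∧ classValue B u ≠ 0 := by
  by_contra hcon
  push Not at hcon
  have := Fintype.ofFinite (ConjClasses H)
  have hz : IsClassFun (0 : H → F) := fun _ _ => rfl
  have hB0 : B (0 : H → F) = 0 := by
    have := hB.smul 0 0 hz
    rwa [zero_smul, zero_mul] at this
  have key : ∀ s : Finset (ConjClasses H),
      IsClassFun (∑ c ∈ s, w c.out • fun y : H => if IsConj c.out y then (1 : F) else 0) ∧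
      B (∑ c ∈ s, w c.out • fun y : H => if IsConj c.out y then (1 : F) else 0) = 0 := by
    intro s
    induction s using Finset.induction_on with
    | empty =>
      rw [Finset.sum_empty]
      exact ⟨hz, hB0⟩
    | insert c s hc ih =>
      rw [Finset.sum_insert hc]
      have h1 := isClassFun_conj (F := F) c.out
      refine ⟨cl_add (cl_smul _ h1) ih.1, ?_⟩
      rw [hB.add _ _ (cl_smul _ h1) ih.1, ih.2, add_zero, hB.smul _ _ h1]
      by_cases h2 : w c.out = 0
      · rw [h2, zero_mul]
      · have h3 : classValue B c.out = 0 := hcon _ h2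
        have h4 : B (fun y : H => if IsConj c.out y then (1 : F) else 0) = 0 := h3
        rw [h4, mul_zero]
  have hsum : w = ∑ c : ConjClasses H, w c.out • fun y : H => if IsConj c.out y then (1 : F) else 0 := by
    funext y
    rw [Finset.sum_apply]
    have hout : ∀ c : ConjClasses H, IsConj c.out y ↔ c = ConjClasses.mk y := by
      intro c
      rw [← ConjClasses.mk_eq_mk_iff_isConj]
      have : ConjClasses.mk c.out = c := Quotient.out_eq c
      rw [this]
    rw [Finset.sum_eq_single (ConjClasses.mk y)]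
    · have h1 : IsConj (ConjClasses.mk y).out y := (hout _).2 rfl
      rw [Pi.smul_apply, if_pos h1, smul_eq_mul, mul_one]
      obtain ⟨g, hg⟩ := isConj_iff.1 h1
      exact (congrArg w hg.symm).trans (hw g _)
    · intro c _ hc
      rw [Pi.smul_apply, if_neg (fun h => hc ((hout c).1 h)), smul_zero]
    · intro h
      exact absurd (Finset.mem_univ _) h
  rw [hsum] at h0
  exact h0 (key Finset.univ).2

/-- the fixed point argument -/
theorem fixed {p : ℕ} [Fact p.Prime] [CharP F p] {f g : H → F} (hf : IsClassFun f)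
    (hg : IsClassFun g) (u : H) (hu : conv f g u ≠ 0) (S : Subgroup H) (hS : IsPGroup p S)
    (hSu : S ≤ Subgroup.centralizer {u}) :
    ∃ a b : H, f a ≠ 0 ∧ g b ≠ 0 ∧ S ≤ Subgroup.centralizer {a} ∧
      S ≤ Subgroup.centralizer {b} := by
  have := Fintype.ofFinite H
  have hSu' : ∀ r ∈ S, r * u = u * r := by
    intro r hr
    exact (Subgroup.mem_centralizer_iff.1 (hSu hr) u rfl).symm
  unfold conv at hu
  rw [finsum_eq_sum_of_fintype, sum_cut (p := p) S hS (fun y => f y * g (y⁻¹ * u))] at hu
  · obtain ⟨a, -, ha⟩ := Finset.exists_ne_zero_of_sum_ne_zero hu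
    have haC : a ∈ Subgroup.centralizer (S : Set H) := by
      by_contra h
      rw [if_neg h] at ha
      exact ha rfl
    rw [if_pos haC] at ha
    have haS : ∀ r ∈ S, r * a = a * r := fun r hr => Subgroup.mem_centralizer_iff.1 haC r hr
    refine ⟨a, a⁻¹ * u, left_ne_zero_of_mul ha, right_ne_zero_of_mul ha, ?_, ?_⟩
    · intro r hr
      rw [Subgroup.mem_centralizer_iff]
      intro y hy
      rw [Set.mem_singleton_iff.1 hy]
      exact (haS r hr).symm
    · intro r hr
      rw [Subgroup.mem_centralizer_iff]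
      intro y hy
      rw [Set.mem_singleton_iff.1 hy]
      have h1 := haS r hr
      have h2 := hSu' r hr
      have h3 : r * a⁻¹ = a⁻¹ * r := by
        calc r * a⁻¹ = a⁻¹ * (a * r) * a⁻¹ := by group
          _ = a⁻¹ * (r * a) * a⁻¹ := by rw [h1]
          _ = a⁻¹ * r := by group
      calc a⁻¹ * u * r = a⁻¹ * (u * r) := by group
        _ = a⁻¹ * (r * u) := by rw [h2]
        _ = (a⁻¹ * r) * u := by group
        _ = (r * a⁻¹) * u := by rw [h3]
        _ = r * (a⁻¹ * u) := by group
  · intro r hr y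
    have h3 : (r * y * r⁻¹)⁻¹ * u = r * (y⁻¹ * u) * r⁻¹ := by
      have h4 := hSu' r hr
      calc (r * y * r⁻¹)⁻¹ * u = r * y⁻¹ * r⁻¹ * (u * r) * r⁻¹ := by group
        _ = r * y⁻¹ * r⁻¹ * (r * u) * r⁻¹ := by rw [h4]
        _ = _ := by group
    show f (r * y * r⁻¹) * g ((r * y * r⁻¹)⁻¹ * u) = f y * g (y⁻¹ * u)
    rw [h3, hf r y, hg r (y⁻¹ * u)]

end cls

section syl

variable {H : Type} [Group H] [Finite H] {p : ℕ} [Fact p.Prime]

theorem card_of {P : Subgroup H} (hP : IsPGroup p P) :
    Nat.card P = p ^ (Nat.card P).factorization p := by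
  obtain ⟨n, hn⟩ := IsPGroup.iff_card.1 hP
  rw [hn, Nat.factorization_pow, Finsupp.smul_apply, Nat.Prime.factorization_self Fact.out,
    smul_eq_mul, mul_one]

/-- a Sylow subgroup of a subgroup -/
theorem exists_syl (C : Subgroup H) : ∃ S : Subgroup H, IsPGroup p S ∧ S ≤ C ∧
    (Nat.card S).factorization p = (Nat.card C).factorization p := by
  obtain ⟨S⟩ : Nonempty (Sylow p C) := inferInstance
  refine ⟨(S : Subgroup C).map C.subtype, S.isPGroup'.map _, Subgroup.map_subtype_le _, ?_⟩
  rw [Subgroup.card_map_of_injective (Subgroup.subtype_injective _), S.card_eq_multiplicity,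
    Nat.factorization_pow, Finsupp.smul_apply, Nat.Prime.factorization_self Fact.out,
    smul_eq_mul, mul_one]

theorem card_conjSub (g : H) (P : Subgroup H) : Nat.card (conjSub g P) = Nat.card P :=
  Subgroup.card_map_of_injective (MulAut.conj g).injective

theorem isP_conjSub (g : H) {P : Subgroup H} (hP : IsPGroup p P) : IsPGroup p (conjSub g P) :=
  hP.map _

/-- Sylow subgroups of a subgroup are conjugate -/
theorem syl_conj (C P Q : Subgroup H) (hP : IsPGroup p P) (hQ : IsPGroup p Q) (hPC : P ≤ C)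
    (hQC : Q ≤ C) (h1 : (Nat.card P).factorization p = (Nat.card C).factorization p)
    (h2 : (Nat.card Q).factorization p = (Nat.card C).factorization p) :
    ∃ c ∈ C, Q = conjSub c P := by
  have e1 : Nat.card (P.subgroupOf C) = p ^ (Nat.card C).factorization p := by
    rw [Nat.card_congr (Subgroup.subgroupOfEquivOfLe hPC).toEquiv, card_of hP, h1]
  have e2 : Nat.card (Q.subgroupOf C) = p ^ (Nat.card C).factorization p := by
    rw [Nat.card_congr (Subgroup.subgroupOfEquivOfLe hQC).toEquiv, card_of hQ, h2]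
  obtain ⟨c, hc⟩ := MulAction.exists_smul_eq C (Sylow.ofCard (P.subgroupOf C) e1)
    (Sylow.ofCard (Q.subgroupOf C) e2)
  refine ⟨c, c.2, ?_⟩
  have h3 : MulAut.conj c • (P.subgroupOf C) = Q.subgroupOf C := by
    have := congrArg (fun S : Sylow p C => (S : Subgroup C)) hc
    exact this
  ext x
  rw [mem_conjSub]
  constructor
  · intro hx
    have h4 : (⟨x, hQC hx⟩ : C) ∈ Q.subgroupOf C := Subgroup.mem_subgroupOf.2 hx
    rw [← h3, Subgroup.mem_pointwise_smul_iff_inv_smul_mem] at h4
    exact Subgroup.mem_subgroupOf.1 h4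
  · intro hx
    have hxC : x ∈ C := by
      have h5 := C.mul_mem (C.mul_mem c.2 (hPC hx)) (C.inv_mem c.2)
      have h6 : (c : H) * ((c : H)⁻¹ * x * c) * (c : H)⁻¹ = x := by group
      rwa [h6] at h5
    have h4 : (⟨x, hxC⟩ : C) ∈ MulAut.conj c • (P.subgroupOf C) := by
      rw [Subgroup.mem_pointwise_smul_iff_inv_smul_mem]
      exact Subgroup.mem_subgroupOf.2 hx
    rw [h3] at h4
    exact Subgroup.mem_subgroupOf.1 h4

omit [Finite H] in
theorem conj_cent (g x : H) (S : Subgroup H) (h : S ≤ Subgroup.centralizer {x}) :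
    conjSub g S ≤ Subgroup.centralizer {g * x * g⁻¹} := by
  intro y hy
  rw [mem_conjSub] at hy
  have h1 := Subgroup.mem_centralizer_iff.1 (h hy) x rfl
  rw [Subgroup.mem_centralizer_iff]
  intro z hz
  rw [Set.mem_singleton_iff.1 hz]
  calc g * x * g⁻¹ * y = g * (x * (g⁻¹ * y * g)) * g⁻¹ := by group
    _ = g * ((g⁻¹ * y * g) * x) * g⁻¹ := by rw [h1]
    _ = y * (g * x * g⁻¹) := by group

end syl

/-- the valuation of the order of the centraliser -/
def nu (p : ℕ) {H : Type} [Group H] (x : H) : ℕ :=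
  (Nat.card ↥(Subgroup.centralizer {x})).factorization p

theorem nu_le {p : ℕ} [Fact p.Prime] {H : Type} [Group H] [Finite H] {S : Subgroup H} {x : H}
    (h : S ≤ Subgroup.centralizer {x}) : (Nat.card S).factorization p ≤ nu p x := by
  unfold nu
  exact (Nat.factorization_le_iff_dvd Nat.card_pos.ne' Nat.card_pos.ne').2
    (Subgroup.card_dvd_of_le h) p

theorem two {p : ℕ} [Fact p.Prime] {F : Type} [Field F] [CharP F p] {H : Type} [Group H] [Finite H]
    {B : (H → F) → F} (hB : IsBlock B) {D : Subgroup H} (hD : IsDefectGroup p B D) {y : H}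
    (hy : classValue B y ≠ 0) : ∃ g : H, conjSub g D ≤ Subgroup.centralizer {y} := by
  obtain ⟨x, hx, hmin, hDx, hDp, hDc⟩ := hD
  have hf := isClassFun_conj (F := F) x
  have hg := isClassFun_conj (F := F) y
  have hw := cl_conv hf hg
  have hBw : B (conv (fun z : H => if IsConj x z then (1 : F) else 0)
      (fun z : H => if IsConj y z then (1 : F) else 0)) ≠ 0 := by
    rw [hB.mul _ _ hf hg]
    exact mul_ne_zero hx hy
  obtain ⟨u, hu, hBu⟩ := expand hB hw hBw
  obtain ⟨S, hSp, hSu, hSc⟩ := exists_syl (p := p) (Subgroup.centralizer {u})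
  obtain ⟨a, b, ha, hb, hSa, hSb⟩ := fixed (p := p) hf hg u hu S hSp hSu
  have hxa : IsConj x a := by
    by_contra h
    rw [if_neg h] at ha
    exact ha rfl
  have hyb : IsConj y b := by
    by_contra h
    rw [if_neg h] at hb
    exact hb rfl
  obtain ⟨g, rfl⟩ := isConj_iff.1 hxa
  obtain ⟨h, rfl⟩ := isConj_iff.1 hyb
  have h1 : nu p (g * x * g⁻¹) = nu p x := by
    unfold nu
    rw [card_cent_conj]
  have h2 : (Nat.card S).factorization p = nu p x := by
    apply le_antisymm
    · rw [← h1]
      exact nu_le hSa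
    · rw [hSc]
      exact hmin u hBu
  obtain ⟨c, -, hc⟩ := syl_conj (p := p) (Subgroup.centralizer {g * x * g⁻¹}) (conjSub g D) S
    (isP_conjSub g hDp) hSp (conj_cent g x D hDx) hSa
    (by rw [card_conjSub, hDc]; exact h1.symm) (by rw [h2]; exact h1.symm)
  refine ⟨h⁻¹ * (c * g), ?_⟩
  rw [conjSub_mul, conjSub_mul, ← hc]
  have h3 := conj_cent h⁻¹ (h * y * h⁻¹) S hSb
  have h4 : h⁻¹ * (h * y * h⁻¹) * h⁻¹⁻¹ = y := by group
  rwa [h4] at h3

theorem MM : S_MM := by
  intro p _ F _ _ _ H _ _ B hB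
  refine ⟨?_, fun D hD y hy => two hB hD hy, fun D hD D' => ⟨fun hD' => ?_, ?_⟩⟩
  · obtain ⟨x, hx, hmin⟩ := Set.exists_min_image {x : H | classValue B x ≠ 0}
      (fun x => (Nat.card ↥(Subgroup.centralizer {x})).factorization p) (Set.toFinite _)
      ⟨1, by show classValue B 1 ≠ 0; rw [classValue_one hB]; exact one_ne_zero⟩
    obtain ⟨S, hSp, hSu, hSc⟩ := exists_syl (p := p) (Subgroup.centralizer {x})
    exact ⟨S, x, hx, fun y hy => hmin y hy, hSu, hSp, hSc⟩
  · have hD2 := hD
    have hD2' := hD'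
    obtain ⟨x, hx, hmin, hDx, hDp, hDc⟩ := hD2
    obtain ⟨x', hx', hmin', hDx', hDp', hDc'⟩ := hD2'
    obtain ⟨g, hg⟩ := two hB hD hx'
    have h1 : (Nat.card ↥(Subgroup.centralizer {x})).factorization p =
        (Nat.card ↥(Subgroup.centralizer {x'})).factorization p :=
      le_antisymm (hmin x' hx') (hmin' x hx)
    obtain ⟨c, -, hc⟩ := syl_conj (p := p) (Subgroup.centralizer {x'}) (conjSub g D) D'
      (isP_conjSub g hDp) hDp' hg hDx' (by rw [card_conjSub, hDc, h1]) hDc'
    exact ⟨c * g, by rw [conjSub_mul]; exact hc⟩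
  · rintro ⟨g, rfl⟩
    obtain ⟨x, hx, hmin, hDx, hDp, hDc⟩ := hD
    refine ⟨g * x * g⁻¹, ?_, ?_, conj_cent g x D hDx, isP_conjSub g hDp, ?_⟩
    · rw [classValue_conj B (isConj_iff.2 ⟨g, rfl⟩)]
      exact hx
    · intro y hy
      rw [card_cent_conj]
      exact hmin y hy
    · rw [card_conjSub, card_cent_conj]
      exact hDc

end Pool.Agent.N457.AE
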