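import Pool.Agent.N904.AP.Stm

/-!
# Every circle on the sphere is the circle of a unit vector (`StForm`)
-/

set_option autoImplicit false

namespace Pool.Agent.N457.AP

open Pool.Agent.N904.AP

theorem eqn_bas0 (z : ℂ) : eqn (bas 0) z = z.im := by
  simp [eqn, bas]

theorem cc0 : Cc 0 = RR := by
  ext p
  constructor
  · rintro (⟨rfl, -⟩ | ⟨z, rfl, hz⟩)
    · exact Or.inl rfl
    · right
      rw [eqn_bas0] at hz
      refine ⟨z.re, ?_⟩
      show ((z.re : ℂ) : OnePoint ℂ) = (z : OnePoint ℂ)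
      congr 1
      apply Complex.ext <;> simp [hz]
  · rintro (rfl | ⟨x, rfl⟩)
    · left
      exact ⟨rfl, by simp [bas]⟩
    · right
      refine ⟨(x : ℂ), rfl, ?_⟩
      rw [eqn_bas0]
      simp

theorem im_zero {w : ℂ} (h : w.im = 0) : w = (w.re : ℂ) := by
  apply Complex.ext <;> simp [h]

/-- membership in a circle, finite points -/
theorem mem_fin (g : GLC) (z : ℂ) : (z : OnePoint ℂ) ∈ img g RR ↔
    ((g 1 1 * z - g 0 1) * (starRingEnd ℂ) (g 0 0 - g 1 0 * z)).im = 0 := by
  have hdet : g 0 0 * g 1 1 - g 0 1 * g 1 0 ≠ 0 := by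
    have := g.det_ne_zero
    rwa [Matrix.det_fin_two] at this
  obtain ⟨a, ha⟩ : ∃ a, a = g 0 0 := ⟨_, rfl⟩
  obtain ⟨b, hb⟩ : ∃ b, b = g 0 1 := ⟨_, rfl⟩
  obtain ⟨c, hc⟩ : ∃ c, c = g 1 0 := ⟨_, rfl⟩
  obtain ⟨d, hd⟩ : ∃ d, d = g 1 1 := ⟨_, rfl⟩
  rw [← ha, ← hb, ← hc, ← hd] at hdet ⊢
  constructor
  · rintro ⟨w, hw, hwz⟩
    simp only at hwz
    rcases hw with rfl | ⟨x, rfl⟩
    · rw [OnePoint.smul_infty_eq_ite, ← hc, ← ha] at hwz
      split_ifs at hwz with h
      · exact absurd hwz (OnePoint.infty_ne_coe z)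
      · have hz := OnePoint.coe_injective hwz
        rw [← hz]
        have : a - c * (a / c) = 0 := by
          field_simp
          ring
        rw [this]
        simp
    · simp only at hwz
      have hwz : g • ((x : ℂ) : OnePoint ℂ) = (z : OnePoint ℂ) := hwz
      rw [OnePoint.smul_some_eq_ite, ← ha, ← hb, ← hc, ← hd] at hwz
      split_ifs at hwz with h
      · exact absurd hwz (OnePoint.infty_ne_coe z)
      · have hz : (a * x + b) / (c * x + d) = z := OnePoint.coe_injective hwz
        have e1 : a - c * z = (a * d - b * c) / (c * x + d) := by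
          rw [← hz]
          field_simp
          ring
        have hz' : z * (c * x + d) = a * x + b := by
          rw [← hz, div_mul_cancel₀ _ h]
        have e2 : d * z - b = x * ((a * d - b * c) / (c * x + d)) := by
          rw [← mul_div_assoc, eq_div_iff h]
          linear_combination d * hz'
        rw [e1, e2, mul_assoc, Complex.mul_conj, ← Complex.ofReal_mul]
        exact Complex.ofReal_im _
  · intro h
    by_cases h0 : a - c * z = 0
    · have hc0 : c ≠ 0 := by
        rintro rfl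
        apply hdet
        have : a = 0 := by simpa using h0
        rw [this]
        ring
      refine ⟨OnePoint.infty, Or.inl rfl, ?_⟩
      simp only
      rw [OnePoint.smul_infty_eq_ite, ← hc, ← ha, if_neg hc0]
      congr 1
      rw [div_eq_iff hc0]
      linear_combination h0
    · have hn : (Complex.normSq (a - c * z) : ℂ) ≠ 0 := by
        exact_mod_cast (Complex.normSq_pos.2 h0).ne'
      obtain ⟨r, hr⟩ : ∃ r : ℝ, (r : ℂ) = (d * z - b) / (a - c * z) := by
        refine ⟨((d * z - b) * (starRingEnd ℂ) (a - c * z)).re / Complex.normSq (a - c * z), ?_⟩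
        rw [Complex.ofReal_div, ← im_zero h, div_eq_div_iff hn h0, ← Complex.mul_conj]
        ring
      refine ⟨((r : ℂ) : OnePoint ℂ), Or.inr ⟨r, rfl⟩, ?_⟩
      simp only
      have e1 : c * r + d = (a * d - b * c) / (a - c * z) := by
        rw [hr]
        field_simp
        ring
      have hr' : (r : ℂ) * (a - c * z) = d * z - b := by
        rw [hr, div_mul_cancel₀ _ h0]
      have e2 : a * r + b = (a * d - b * c) * z / (a - c * z) := by
        rw [eq_div_iff h0]
        linear_combination a * hr'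
      have hne : c * r + d ≠ 0 := by
        rw [e1]
        exact div_ne_zero hdet h0
      rw [OnePoint.smul_some_eq_ite, ← ha, ← hb, ← hc, ← hd, if_neg hne]
      congr 1
      rw [e1, e2]
      field_simp

/-- membership in a circle, the point at infinity -/
theorem mem_inf (g : GLC) : (OnePoint.infty : OnePoint ℂ) ∈ img g RR ↔
    (g 1 1 * (starRingEnd ℂ) (g 1 0)).im = 0 := by
  have hdet : g 0 0 * g 1 1 - g 0 1 * g 1 0 ≠ 0 := by
    have := g.det_ne_zero
    rwa [Matrix.det_fin_two] at this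
  obtain ⟨a, ha⟩ : ∃ a, a = g 0 0 := ⟨_, rfl⟩
  obtain ⟨b, hb⟩ : ∃ b, b = g 0 1 := ⟨_, rfl⟩
  obtain ⟨c, hc⟩ : ∃ c, c = g 1 0 := ⟨_, rfl⟩
  obtain ⟨d, hd⟩ : ∃ d, d = g 1 1 := ⟨_, rfl⟩
  rw [← ha, ← hb, ← hc, ← hd] at hdet
  rw [← hc, ← hd]
  constructor
  · rintro ⟨w, hw, hwz⟩
    simp only at hwz
    rcases hw with rfl | ⟨x, rfl⟩
    · rw [OnePoint.smul_infty_eq_ite, ← hc, ← ha] at hwz
      split_ifs at hwz with h
      · rw [h]
        simp
      · exact absurd hwz.symm (OnePoint.infty_ne_coe _)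
    · have hwz : g • ((x : ℂ) : OnePoint ℂ) = OnePoint.infty := hwz
      rw [OnePoint.smul_some_eq_ite, ← ha, ← hb, ← hc, ← hd] at hwz
      split_ifs at hwz with h
      · have e : d = -x * c := by linear_combination h
        rw [e, mul_assoc, Complex.mul_conj, ← Complex.ofReal_neg, ← Complex.ofReal_mul]
        exact Complex.ofReal_im _
      · exact absurd hwz.symm (OnePoint.infty_ne_coe _)
  · intro h
    by_cases h0 : c = 0
    · refine ⟨OnePoint.infty, Or.inl rfl, ?_⟩
      simp only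
      rw [OnePoint.smul_infty_eq_ite, ← hc, ← ha, if_pos h0]
    · have hn : (Complex.normSq c : ℂ) ≠ 0 := by
        exact_mod_cast (Complex.normSq_pos.2 h0).ne'
      obtain ⟨r, hr⟩ : ∃ r : ℝ, (r : ℂ) = - d / c := by
        refine ⟨-(d * (starRingEnd ℂ) c).re / Complex.normSq c, ?_⟩
        rw [Complex.ofReal_div, Complex.ofReal_neg, ← im_zero h, div_eq_div_iff hn h0,
          ← Complex.mul_conj]
        ring
      refine ⟨((r : ℂ) : OnePoint ℂ), Or.inr ⟨r, rfl⟩, ?_⟩
      simp only
      have e1 : c * r + d = 0 := by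
        rw [hr]
        field_simp
        ring
      rw [OnePoint.smul_some_eq_ite, ← ha, ← hb, ← hc, ← hd, if_pos e1]

theorem form : StForm := by
  refine ⟨cc0, ?_⟩
  rintro S ⟨g, rfl⟩
  have hdet : g 0 0 * g 1 1 - g 0 1 * g 1 0 ≠ 0 := by
    have := g.det_ne_zero
    rwa [Matrix.det_fin_two] at this
  have hf := mem_fin g
  have hi := mem_inf g
  obtain ⟨a, ha⟩ : ∃ a, a = g 0 0 := ⟨_, rfl⟩
  obtain ⟨b, hb⟩ : ∃ b, b = g 0 1 := ⟨_, rfl⟩
  obtain ⟨c, hc⟩ : ∃ c, c = g 1 0 := ⟨_, rfl⟩
  obtain ⟨d, hd⟩ : ∃ d, d = g 1 1 := ⟨_, rfl⟩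
  rw [← ha, ← hb, ← hc, ← hd] at hdet
  rw [← hc, ← hd] at hi
  simp only [← ha, ← hb, ← hc, ← hd] at hf
  obtain ⟨s, hs⟩ : ∃ s : ℝ, s = ‖a * d - b * c‖ := ⟨_, rfl⟩
  have hs0 : 0 < s := by rw [hs]; exact norm_pos_iff.2 hdet
  have hs2 : s ^ 2 = (a.re * d.re - a.im * d.im - (b.re * c.re - b.im * c.im)) ^ 2 +
      (a.re * d.im + a.im * d.re - (b.re * c.im + b.im * c.re)) ^ 2 := by
    rw [hs, ← Complex.normSq_eq_norm_sq, Complex.normSq_apply]
    simp only [Complex.sub_re, Complex.sub_im, Complex.mul_re, Complex.mul_im]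
    ring
  obtain ⟨A, hA⟩ : ∃ A : ℝ, A = -(d.im * c.re - d.re * c.im) := ⟨_, rfl⟩
  obtain ⟨D, hD⟩ : ∃ D : ℝ, D = -(b.im * a.re - b.re * a.im) := ⟨_, rfl⟩
  obtain ⟨B, hB⟩ : ∃ B : ℝ, B = (d.im * a.re - d.re * a.im) + (b.im * c.re - b.re * c.im) :=
    ⟨_, rfl⟩
  obtain ⟨C, hC⟩ : ∃ C : ℝ, C = (d.re * a.re + d.im * a.im) - (b.re * c.re + b.im * c.im) :=
    ⟨_, rfl⟩
  have hdisc : B ^ 2 + C ^ 2 - 4 * A * D = s ^ 2 := by
    rw [hs2, hA, hB, hC, hD]
    ring
  have hH : ∀ z : ℂ, ((d * z - b) * (starRingEnd ℂ) (a - c * z)).im =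
      A * (z.re ^ 2 + z.im ^ 2) + B * z.re + C * z.im + D := by
    intro z
    rw [hA, hB, hC, hD]
    simp only [Complex.sub_re, Complex.sub_im, Complex.mul_re, Complex.mul_im, Complex.conj_re,
      Complex.conj_im]
    ring
  have hI : (d * (starRingEnd ℂ) c).im = -A := by
    rw [hA]
    simp only [Complex.mul_im, Complex.conj_re, Complex.conj_im]
    ring
  refine ⟨![(C + D + A + B / 2) / s, (D + B / 2) / s, (A + B / 2) / s, (-B / 2) / s], ?_, ?_⟩
  · have e : ∀ x : Fin 4 → ℝ, QQ x = (2 * x 3) ^ 2 + (x 1 + x 2 + x 3 - x 0) ^ 2 -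
        4 * (x 2 + x 3) * (x 1 + x 3) := by
      intro x
      simp only [QQ, BB, Fin.sum_univ_four]
      ring
    rw [e]
    simp only [Matrix.cons_val]
    have h1 : (2 * (-B / 2 / s)) ^ 2 +
        ((D + B / 2) / s + (A + B / 2) / s + -B / 2 / s - (C + D + A + B / 2) / s) ^ 2 -
        4 * ((A + B / 2) / s + -B / 2 / s) * ((D + B / 2) / s + -B / 2 / s) =
        (B ^ 2 + C ^ 2 - 4 * A * D) / s ^ 2 := by
      field_simp
      ring
    rw [h1, hdisc, div_self (by positivity)]
  · ext p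
    cases p using OnePoint.rec with
    | infty =>
      rw [hi, hI]
      constructor
      · intro h
        left
        refine ⟨rfl, ?_⟩
        simp only [Matrix.cons_val]
        have : A = 0 := by linarith
        rw [this]
        ring
      · rintro (⟨-, h⟩ | ⟨z, hz, -⟩)
        · simp only [Matrix.cons_val] at h
          have h2 : A / s = 0 := by
            rw [← h]
            ring
          have h3 : A = 0 := by
            rcases div_eq_zero_iff.1 h2 with h | h
            · exact h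
            · exact absurd h hs0.ne'
          linarith
        · exact absurd hz (OnePoint.infty_ne_coe z)
    | coe z =>
      have he : eqn ![(C + D + A + B / 2) / s, (D + B / 2) / s, (A + B / 2) / s, (-B / 2) / s] z =
          (A * (z.re ^ 2 + z.im ^ 2) + B * z.re + C * z.im + D) / s := by
        simp only [eqn, Matrix.cons_val]
        field_simp
        ring
      rw [hf, hH]
      constructor
      · intro h
        right
        exact ⟨z, rfl, by rw [he, h, zero_div]⟩
      · rintro (⟨h, -⟩ | ⟨w, hw, h⟩)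
        · exact absurd h.symm (OnePoint.infty_ne_coe z)
        · have hzw : z = w := OnePoint.coe_injective hw
          subst hzw
          rw [he] at h
          rcases div_eq_zero_iff.1 h with h | h
          · exact h
          · exact absurd h hs0.ne'

end Pool.Agent.N457.AP
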