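import Pool.Agent.N904.AP.Basic

/-!
# The two special half turns permute the special circles (`StMove`)
-/

set_option autoImplicit false

open Set Filter Topology

namespace Pool.Agent.N457.APM

open Pool.Agent.N904.AP

theorem s5_sq : s5 ^ 2 = 5 := by
  unfold s5
  exact Real.sq_sqrt (by norm_num)

theorem lam_eq : lam = (s5 + 2) ^ 2 := by
  have h := s5_sq
  have h2 : lam = 9 + 4 * s5 := rfl
  rw [h2]
  linear_combination -h

theorem lam_mul : lam * (s5 - 2) ^ 2 = 1 := by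
  rw [lam_eq]
  have h := s5_sq
  linear_combination (s5 ^ 2 - 3) * h

theorem lam_pos : 0 < lam := by
  have h : 0 ≤ s5 := Real.sqrt_nonneg _
  rw [lam_eq]
  positivity

theorem coe_Ct (t : ℝ) (z : ℂ) :
    (z : OnePoint ℂ) ∈ Ct t ↔ ‖z‖ ^ 2 - 5 = t * ‖z + (s5 : ℂ)‖ ^ 2 := by
  constructor
  · rintro (⟨h, -⟩ | ⟨w, hw, h⟩)
    · exact absurd h.symm (OnePoint.infty_ne_coe z)
    · rwa [OnePoint.coe_injective hw]
  · intro h
    exact Or.inr ⟨z, rfl, h⟩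

theorem inf_Ct (t : ℝ) : (OnePoint.infty : OnePoint ℂ) ∈ Ct t ↔ t = 1 := by
  constructor
  · rintro (⟨-, h⟩ | ⟨w, hw, h⟩)
    · exact h
    · exact absurd hw (OnePoint.infty_ne_coe w)
  · intro h
    exact Or.inl ⟨rfl, h⟩

theorem coe_Cu (t : ℝ) (z : ℂ) :
    (z : OnePoint ℂ) ∈ Cu t ↔ 5 - ‖z‖ ^ 2 = t * ‖z - (s5 : ℂ)‖ ^ 2 := by
  constructor
  · rintro ⟨w, hw, h⟩
    rwa [OnePoint.coe_injective hw]
  · intro h
    exact ⟨z, rfl, h⟩

theorem inf_Cu (t : ℝ) : (OnePoint.infty : OnePoint ℂ) ∉ Cu t := by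
  rintro ⟨w, hw, -⟩
  exact absurd hw (OnePoint.infty_ne_coe w)

theorem Cu_zero : Cu 0 = Ct 0 := by
  ext p
  induction p using OnePoint.rec with
  | infty =>
    rw [inf_Ct]
    exact ⟨fun h => absurd h (inf_Cu 0), fun h => absurd h zero_ne_one⟩
  | coe z =>
    rw [coe_Ct, coe_Cu]
    constructor <;> intro h <;> linarith

/-- the norm identities for the letter `(m, 1)`, `m = ∓ 2` -/
theorem key {z w : ℂ} {m t κ : ℝ} (hm : m ^ 2 = 4) (hκ : (s5 + m) ^ 2 = κ) (hz : z ≠ (m : ℂ))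
    (hw : w = m - 1 / (z - m)) :
    ‖w‖ ^ 2 - 5 = t * ‖w + (s5 : ℂ)‖ ^ 2 ↔ 5 - ‖z‖ ^ 2 = t * κ * ‖z - (s5 : ℂ)‖ ^ 2 := by
  have hz' : z - m ≠ 0 := sub_ne_zero.2 hz
  have hs : (s5 : ℂ) ^ 2 = 5 := by exact_mod_cast s5_sq
  have hmc : (m : ℂ) ^ 2 = 4 := by exact_mod_cast hm
  have e1 : w * (z - m) = m * z - 5 := by
    rw [hw, sub_mul, one_div_mul_cancel hz']
    linear_combination -hmc
  have e2 : (w + s5) * (z - m) = (s5 + m) * (z - s5) := by
    rw [add_mul, e1]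
    linear_combination hs
  have hN : 0 < ‖z - m‖ ^ 2 := by
    have := norm_pos_iff.2 hz'
    positivity
  have f1 : ‖w‖ ^ 2 * ‖z - m‖ ^ 2 = ‖(m : ℂ) * z - 5‖ ^ 2 := by
    rw [← mul_pow, ← norm_mul, e1]
  have f2 : ‖w + (s5 : ℂ)‖ ^ 2 * ‖z - m‖ ^ 2 = κ * ‖z - (s5 : ℂ)‖ ^ 2 := by
    rw [← mul_pow, ← norm_mul, e2, norm_mul, mul_pow, ← hκ]
    congr 1
    rw [← Complex.ofReal_add, Complex.norm_real, Real.norm_eq_abs, sq_abs]
  have f3 : ‖(m : ℂ) * z - 5‖ ^ 2 - 5 * ‖z - m‖ ^ 2 = 5 - ‖z‖ ^ 2 := by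
    rw [← Complex.normSq_eq_norm_sq, ← Complex.normSq_eq_norm_sq, ← Complex.normSq_eq_norm_sq,
      Complex.normSq_apply, Complex.normSq_apply, Complex.normSq_apply]
    simp only [Complex.sub_re, Complex.sub_im, Complex.mul_re, Complex.mul_im, Complex.ofReal_re,
      Complex.ofReal_im, Complex.re_ofNat, Complex.im_ofNat]
    linear_combination (z.re ^ 2 + z.im ^ 2 - 5) * hm
  constructor
  · intro h
    have h2 : (‖w‖ ^ 2 - 5) * ‖z - m‖ ^ 2 = t * ‖w + (s5 : ℂ)‖ ^ 2 * ‖z - m‖ ^ 2 := by rw [h]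
    rw [sub_mul, f1, mul_assoc t, f2, f3] at h2
    rw [h2]
    ring
  · intro h
    refine mul_right_cancel₀ hN.ne' ?_
    rw [sub_mul, f1, mul_assoc t, f2, f3, h]
    ring

theorem pre {a : ℂ × ℂ} {m t κ : ℝ} (ha : a = ((m : ℂ), 1)) (ht : 0 ≤ t) (hm : m ^ 2 = 4)
    (hκ : (s5 + m) ^ 2 = κ) (hκ' : κ * (m - s5) ^ 2 = 1) :
    sg a '' Ct t = Cu (t * κ) := by
  have ha2 : a.2 ≠ 0 := by rw [ha]; exact one_ne_zero
  have ha1 : a.1 = (m : ℂ) := by rw [ha]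
  have ha3 : a.2 = 1 := by rw [ha]
  rw [sg_image ha2]
  ext p
  rw [mem_preimage]
  have hnm : ‖(m : ℂ)‖ ^ 2 = 4 := by
    rw [Complex.norm_real, Real.norm_eq_abs, sq_abs, hm]
  induction p using OnePoint.rec with
  | infty =>
    rw [sg_infty, ha1, coe_Ct, hnm]
    constructor
    · intro h
      exfalso
      have : 0 ≤ t * ‖(m : ℂ) + s5‖ ^ 2 := by positivity
      linarith
    · intro h
      exact absurd h (inf_Cu _)
  | coe z =>
    by_cases hz : z = a.1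
    · rw [hz, sg_self, inf_Ct, coe_Cu, ha1, hnm]
      have h1 : ‖(m : ℂ) - s5‖ ^ 2 = (m - s5) ^ 2 := by
        rw [← Complex.ofReal_sub, Complex.norm_real, Real.norm_eq_abs, sq_abs]
      rw [h1, mul_assoc, hκ', mul_one]
      constructor
      · rintro rfl
        norm_num
      · intro h
        linarith
    · rw [sg_coe hz, coe_Ct, coe_Cu, ha1, ha3]
      exact key hm hκ (by rwa [ha1] at hz) rfl

theorem g1_eq : g1 = (((-2 : ℝ) : ℂ), 1) := by
  unfold g1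
  simp

theorem g2_eq : g2 = (((2 : ℝ) : ℂ), 1) := by
  unfold g2
  simp

theorem g1_Ct {t : ℝ} (ht : 0 ≤ t) : sg g1 '' Ct t = Cu (t / lam) := by
  have h : (s5 - 2) ^ 2 = lam⁻¹ := eq_inv_of_mul_eq_one_right lam_mul
  have := pre (κ := lam⁻¹) g1_eq ht (by norm_num) (by rw [← h]; ring) (by
    rw [inv_mul_eq_div, div_eq_one_iff_eq lam_pos.ne', lam_eq]
    ring)
  rw [this, div_eq_mul_inv]

theorem g2_Ct {t : ℝ} (ht : 0 ≤ t) : sg g2 '' Ct t = Cu (t * lam) :=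
  pre g2_eq ht (by norm_num) lam_eq.symm (by
    have := lam_mul
    linear_combination this)

theorem move : StMove := by
  have i1 : ∀ S : Set (OnePoint ℂ), sg g1 '' (sg g1 '' S) = S := by
    intro S
    rw [image_image]
    have : ∀ x, sg g1 (sg g1 x) = x := sg_sg (by rw [g1_eq]; exact one_ne_zero)
    simp [this]
  have i2 : ∀ S : Set (OnePoint ℂ), sg g2 '' (sg g2 '' S) = S := by
    intro S
    rw [image_image]
    have : ∀ x, sg g2 (sg g2 x) = x := sg_sg (by rw [g2_eq]; exact one_ne_zero)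
    simp [this]
  refine ⟨fun t ht => ⟨?_, ?_⟩, fun t ht => ⟨?_, ?_⟩⟩
  · rw [g1_Ct ht]
    split_ifs with h
    · rw [h, zero_div, Cu_zero]
    · rfl
  · rw [g2_Ct ht]
    split_ifs with h
    · rw [h, zero_mul, Cu_zero]
    · rfl
  · have := g1_Ct (t := t * lam) (mul_nonneg ht.le lam_pos.le)
    rw [mul_div_assoc, div_self lam_pos.ne', mul_one] at this
    rw [← this, i1]
  · have := g2_Ct (t := t / lam) (div_nonneg ht.le lam_pos.le)
    rw [div_mul_cancel₀ _ lam_pos.ne'] at this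
    rw [← this, i2]

end Pool.Agent.N457.APM
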