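import Pool.Agent.N904.AP.Basic

/-!
# Orbits accumulate only on the invariant closed set (`StSub`)
-/

set_option autoImplicit false

open Set Filter Topology

namespace Pool.Agent.N457.AP

open Pool.Agent.N904.AP

variable {𝒜 : Set (ℂ × ℂ)}

theorem wd_mem {Λ : Set (OnePoint ℂ)} (hΛ : ∀ a ∈ 𝒜, ∀ z ∈ Λ, sg a z ∈ Λ) {z : OnePoint ℂ}
    (hz : z ∈ Λ) : ∀ l, InA 𝒜 l → wd l z ∈ Λ := by
  intro l
  induction l with
  | nil => intro _; exact hz
  | cons a l ih => intro h; exact hΛ a h.head _ (ih h.tail)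

/-- every disc of the nest contains a point of `Λ` -/
theorem nest_mem {Λ : Set (OnePoint ℂ)} (hi : OnePoint.infty ∈ Λ)
    (hΛ : ∀ a ∈ 𝒜, ∀ z ∈ Λ, sg a z ∈ Λ) : ∀ l, InA 𝒜 l → l ≠ [] → ∃ p ∈ nest l, p ∈ Λ := by
  intro l
  induction l with
  | nil => intro _ h; exact absurd rfl h
  | cons a l ih =>
    intro h _
    cases l with
    | nil =>
      refine ⟨(a.1 : OnePoint ℂ), ?_, ?_⟩
      · show (a.1 : OnePoint ℂ) ∈ up (Dk a)
        rw [mem_up]
        exact Metric.mem_closedBall_self (Real.sqrt_nonneg _)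
      · rw [← sg_infty]
        exact hΛ a h.head _ hi
    | cons b m =>
      obtain ⟨p, hp, hpΛ⟩ := ih h.tail (by simp)
      exact ⟨sg a p, ⟨p, hp, rfl⟩, hΛ a h.head _ hpΛ⟩

theorem nest_sub (h1 : StContr) (hA : Adm 𝒜) {l : List (ℂ × ℂ)} (hl : InA 𝒜 l) (hr : Red l)
    (hne : l ≠ []) : ∃ a, nest l ⊆ up (Dk a) := by
  cases l with
  | nil => exact absurd rfl hne
  | cons a t => exact ⟨a, (h1 𝒜 hA).1 (a :: t) hl hr a t rfl⟩

theorem diam_ge (h1 : StContr) (hA : Adm 𝒜) {l : List (ℂ × ℂ)} (hl : InA 𝒜 l) (hr : Red l)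
    (hne : l ≠ []) {v w : ℂ} (hv : (v : OnePoint ℂ) ∈ nest l) (hw : (w : OnePoint ℂ) ∈ nest l) :
    dist v w ≤ Metric.diam (low (nest l)) := by
  obtain ⟨a, ha⟩ := nest_sub h1 hA hl hr hne
  refine Metric.dist_le_diam_of_mem ?_ hv hw
  refine (Metric.isBounded_closedBall (x := a.1) (r := rad a)).subset ?_
  intro z hz
  exact mem_up.1 (ha hz)

/-- a nest with a point near `u` and a ball around `u` without points of `Λ` -/
theorem diam_ge' (h1 : StContr) (hA : Adm 𝒜) {Λ : Set (OnePoint ℂ)} (hi : OnePoint.infty ∈ Λ)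
    (hΛ : ∀ a ∈ 𝒜, ∀ z ∈ Λ, sg a z ∈ Λ) {u v : ℂ} {ε : ℝ}
    (hu : ∀ w : ℂ, (w : OnePoint ℂ) ∈ Λ → 2 * ε ≤ dist w u) (huv : dist v u < ε)
    {l : List (ℂ × ℂ)} (hl : InA 𝒜 l) (hr : Red l) (hne : l ≠ []) (hv : (v : OnePoint ℂ) ∈ nest l) :
    ε ≤ Metric.diam (low (nest l)) := by
  obtain ⟨p, hp, hpΛ⟩ := nest_mem hi hΛ l hl hne
  obtain ⟨a, ha⟩ := nest_sub h1 hA hl hr hne
  obtain ⟨w, -, rfl⟩ := ha hp
  have h2 := diam_ge h1 hA hl hr hne hv hp
  have h3 := hu w hpΛ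
  have h4 := dist_triangle w v u
  rw [dist_comm w v] at h4
  linarith

theorem far {Λ : Set (OnePoint ℂ)} (hc : IsClosed Λ) {u : ℂ} (hu : (u : OnePoint ℂ) ∉ Λ) :
    ∃ ε : ℝ, 0 < ε ∧ ∀ w : ℂ, (w : OnePoint ℂ) ∈ Λ → 2 * ε ≤ dist w u := by
  have ho : IsOpen ((fun z : ℂ => (z : OnePoint ℂ)) ⁻¹' Λᶜ) :=
    hc.isOpen_compl.preimage OnePoint.continuous_coe
  obtain ⟨δ, hδ, hb⟩ := Metric.isOpen_iff.1 ho u hu
  refine ⟨δ / 2, by positivity, fun w hw => ?_⟩
  by_contra hlt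
  push Not at hlt
  exact hb (show w ∈ Metric.ball u δ by rw [Metric.mem_ball]; linarith) hw

theorem sub_of (h1 : StContr) (h2 : StRed) (h3 : StItin) : StSub := by
  intro 𝒜 hA Λ hc hi hΛ z
  by_cases hz : z ∈ Λ
  · refine (derivedSet_subset_closure _).trans ?_
    refine closure_minimal ?_ hc
    rintro w ⟨l, hl, rfl⟩
    exact wd_mem hΛ hz l hl
  -- a point of the orbit outside the open discs
  obtain ⟨l₀, hl₀, hx₀⟩ : ∃ l, InA 𝒜 l ∧ ∀ a ∈ 𝒜, wd l z ∉ up (Metric.ball a.1 (rad a)) := by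
    by_contra hcon
    push Not at hcon
    have hit := h3 𝒜 hA z hcon
    induction z using OnePoint.rec with
    | infty => exact hz hi
    | coe u =>
      obtain ⟨ε, hε, hu⟩ := far hc hz
      choose L hL1 hL2 hL3 hL4 using hit
      have hfin := (h1 𝒜 hA).2.2 ε hε
      refine Set.infinite_of_injective_forall_mem (f := L) ?_ ?_ hfin
      · intro m n hmn
        have := congrArg List.length hmn
        rw [hL3, hL3] at this
        omega
      · intro n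
        have hne : L n ≠ [] := by
          intro h
          have := hL3 n
          rw [h] at this
          simp at this
        exact ⟨hL1 n, hL2 n, hne, diam_ge' h1 hA hi hΛ hu (by simpa using hε) (hL1 n) (hL2 n) hne
          (hL4 n)⟩
  obtain ⟨x₀, hx₀e⟩ : ∃ x₀, x₀ = wd l₀ z := ⟨_, rfl⟩
  rw [← hx₀e] at hx₀
  have horb : orb 𝒜 z ⊆ orb 𝒜 x₀ := by
    rintro w ⟨l, hl, rfl⟩
    refine ⟨l ++ l₀.reverse, hl.append hl₀.reverse, ?_⟩
    rw [wd_append, hx₀e, wd_reverse_wd fun a ha => hA.ne a (hl₀ a ha)]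
  intro x hx
  by_contra hxΛ
  rw [mem_derivedSet] at hx
  have hx' : AccPt x (𝓟 (orb 𝒜 x₀)) := hx.mono (principal_mono.2 horb)
  induction x using OnePoint.rec with
  | infty => exact hxΛ hi
  | coe u =>
    obtain ⟨ε, hε, hu⟩ := far hc hxΛ
    have hU : up (Metric.ball u ε) ∈ 𝓝 (u : OnePoint ℂ) := by
      refine IsOpen.mem_nhds ?_ (mem_up.2 (Metric.mem_ball_self hε))
      exact OnePoint.isOpenEmbedding_coe.isOpenMap _ Metric.isOpen_ball
    have hinf := Set.Infinite.of_accPt (hx'.nhds_inter hU)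
    refine hinf ?_
    have hfin := (h1 𝒜 hA).2.2 ε hε
    refine ((hfin.image fun l => wd l x₀).union (Set.finite_singleton x₀)).subset ?_
    rintro w ⟨⟨v, hv, rfl⟩, ⟨l, hl, hw⟩⟩
    simp only at hw ⊢
    obtain ⟨l', hl', hr', he⟩ := h2 𝒜 hA l hl
    rw [he] at hw
    by_cases hne : l' = []
    · right
      rw [hne] at hw
      exact hw
    · left
      refine ⟨l', ⟨hl', hr', hne, ?_⟩, hw.symm⟩
      have hmem := (h1 𝒜 hA).2.1 l' hl' hr' x₀ hne hx₀
      rw [← hw] at hmem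
      exact diam_ge' h1 hA hi hΛ hu hv hl' hr' hne hmem

end Pool.Agent.N457.AP
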