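import Mathlib
import Pool.Agent.N852.EL.WM

/-!
Project EL, part W1 (helper457): a sum over the lattice points of a simplex.
-/

set_option autoImplicit false

namespace Pool.Agent.N457.ELW

open Pool.Agent.N852.EL

/-- the weight of one coordinate is bounded -/
theorem SumP_geom (r Y x : ℝ) (hr0 : 0 < r) (hr1 : r < 1) :
    ∑ n ∈ Finset.range (⌊Y / x⌋₊ + 1), r ^ n ≤ 1 / (1 - r) := by
  have h1 : 0 < 1 - r := by linarith
  rw [le_div_iff₀ h1]
  have h2 : (∑ n ∈ Finset.range (⌊Y / x⌋₊ + 1), r ^ n) * (1 - r) =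
      1 - r ^ (⌊Y / x⌋₊ + 1) := by
    have h3 := geom_sum_mul r (⌊Y / x⌋₊ + 1)
    linarith
  rw [h2]
  have := pow_pos hr0 (⌊Y / x⌋₊ + 1)
  linarith

theorem sumP : SumP := by
  classical
  intro V _ a l α hl ha hα hex
  obtain ⟨v0, hv0⟩ := hex
  obtain ⟨r, hr⟩ : ∃ r : V → ℝ, ∀ v, r v =
      if v = v0 then (2 : ℝ) ^ (-(α * l v0)) else (2 : ℝ) ^ (-(α * l v - a v)) :=
    ⟨_, fun _ => rfl⟩
  have hr0 : ∀ v, 0 < r v := by
    intro v
    rw [hr]
    split_ifs <;> positivity
  have hr1 : ∀ v, ¬ (a v = α * l v ∧ v ≠ v0) → r v < 1 := by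
    intro v hv
    rw [hr]
    split_ifs with h
    · exact Real.rpow_lt_one_of_one_lt_of_neg (by norm_num) (by
        have := mul_pos hα (hl v0)
        linarith)
    · have h1 : a v ≠ α * l v := fun h2 => hv ⟨h2, h⟩
      have h2 : a v < α * l v := lt_of_le_of_ne (ha v) h1
      exact Real.rpow_lt_one_of_one_lt_of_neg (by norm_num) (by linarith)
  have hr2 : ∀ v, (a v = α * l v ∧ v ≠ v0) → r v = 1 := by
    rintro v ⟨h1, h2⟩
    rw [hr, if_neg h2, h1, sub_self, neg_zero, Real.rpow_zero]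
  obtain ⟨c, hc⟩ : ∃ c : V → ℝ, ∀ v, c v =
      if (a v = α * l v ∧ v ≠ v0) then 1 / l v + 1 else 1 / (1 - r v) := ⟨_, fun _ => rfl⟩
  obtain ⟨e, he⟩ : ∃ e : V → ℕ, ∀ v, e v = if (a v = α * l v ∧ v ≠ v0) then 1 else 0 :=
    ⟨_, fun _ => rfl⟩
  have hc0 : ∀ v, 0 < c v := by
    intro v
    rw [hc]
    split_ifs with h
    · have := hl v
      positivity
    · have := hr1 v h
      exact div_pos one_pos (by linarith)
  have hgeo : ∀ (Y : ℝ), 0 ≤ Y → ∀ v,
      ∑ n ∈ Finset.range (⌊Y / l v⌋₊ + 1), r v ^ n ≤ c v * (Y + 1) ^ e v := by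
    intro Y hY v
    rw [hc, he]
    split_ifs with h
    · rw [hr2 v h]
      simp only [one_pow, Finset.sum_const, Finset.card_range, nsmul_eq_mul, mul_one, pow_one]
      have h1 := Nat.floor_le (div_nonneg hY (hl v).le)
      push_cast
      have h2 : (1 / l v + 1) * (Y + 1) = Y / l v + 1 / l v + Y + 1 := by ring
      have h3 : 0 < 1 / l v := by
        have := hl v
        positivity
      linarith
    · rw [pow_zero, mul_one]
      exact SumP_geom _ _ _ (hr0 v) (hr1 v h)
  have hsum : ∑ v, e v = Nat.card {v // a v = α * l v} - 1 := by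
    have h1 : ∑ v, e v = (Finset.univ.filter fun v => a v = α * l v ∧ v ≠ v0).card := by
      rw [Finset.card_filter]
      exact Finset.sum_congr rfl fun v _ => he v
    have h2 : (Finset.univ.filter fun v => a v = α * l v ∧ v ≠ v0) =
        (Finset.univ.filter fun v => a v = α * l v).erase v0 := by
      ext v
      simp [and_comm]
    rw [h1, h2, Finset.card_erase_of_mem (by simp [hv0]), Nat.card_eq_fintype_card,
      Fintype.card_subtype]
  refine ⟨∏ v, c v, Finset.prod_pos fun v _ => hc0 v, fun Y J hY hJ => ?_⟩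
  -- the change of variables
  obtain ⟨rest, hrest⟩ : ∃ rest : (V → ℕ) → ℝ, ∀ i, rest i =
      ∑ v ∈ Finset.univ.erase v0, l v * (i v : ℝ) := ⟨_, fun _ => rfl⟩
  obtain ⟨K, hK⟩ : ∃ K : (V → ℕ) → ℕ, ∀ i, K i = ⌊(Y - rest i) / l v0⌋₊ := ⟨_, fun _ => rfl⟩
  obtain ⟨g, hg⟩ : ∃ g : (V → ℕ) → (V → ℕ), ∀ i, g i =
      Function.update i v0 (K i - i v0) := ⟨_, fun _ => rfl⟩
  have hrest0 : ∀ i, 0 ≤ rest i := by
    intro i
    rw [hrest]
    exact Finset.sum_nonneg fun v _ => mul_nonneg (hl v).le (Nat.cast_nonneg _)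
  have hJ2 : ∀ i ∈ J, l v0 * (i v0 : ℝ) + rest i ≤ Y := by
    intro i hi
    have h1 := hJ i hi
    rw [← Finset.add_sum_erase Finset.univ _ (Finset.mem_univ v0)] at h1
    rw [hrest]
    exact h1
  have hKi : ∀ i ∈ J, i v0 ≤ K i := by
    intro i hi
    rw [hK]
    refine Nat.le_floor ?_
    rw [le_div_iff₀ (hl v0)]
    have := hJ2 i hi
    linarith
  have hKY : ∀ i ∈ J, l v0 * (K i : ℝ) + rest i ≤ Y := by
    intro i hi
    have h0 : 0 ≤ l v0 * (i v0 : ℝ) := mul_nonneg (hl v0).le (Nat.cast_nonneg _)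
    have h1 : 0 ≤ (Y - rest i) / l v0 := div_nonneg (by have := hJ2 i hi; linarith) (hl v0).le
    have h2 := Nat.floor_le h1
    rw [← hK, le_div_iff₀ (hl v0)] at h2
    linarith
  have hinj : Set.InjOn g (↑J : Set (V → ℕ)) := by
    intro i hi j hj hij
    rw [hg, hg] at hij
    have h1 : ∀ v, v ≠ v0 → i v = j v := by
      intro v hv
      have h2 := congrFun hij v
      rwa [Function.update_of_ne hv, Function.update_of_ne hv] at h2
    have h2 : rest i = rest j := by
      rw [hrest, hrest]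
      refine Finset.sum_congr rfl fun v hv => ?_
      rw [h1 v (Finset.ne_of_mem_erase hv)]
    have h3 : K i = K j := by rw [hK, hK, h2]
    have h4 := congrFun hij v0
    rw [Function.update_self, Function.update_self] at h4
    have h5 := hKi i hi
    have h6 := hKi j hj
    funext v
    by_cases hv : v = v0
    · subst hv
      omega
    · exact h1 v hv
  have hbox : ∀ i ∈ J, g i ∈ Fintype.piFinset fun v => Finset.range (⌊Y / l v⌋₊ + 1) := by
    intro i hi
    rw [Fintype.mem_piFinset]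
    intro v
    rw [Finset.mem_range, Nat.lt_succ_iff]
    refine Nat.le_floor ?_
    rw [le_div_iff₀ (hl v)]
    by_cases hv : v = v0
    · subst hv
      rw [hg, Function.update_self, Nat.cast_sub (hKi i hi)]
      have h1 := hKY i hi
      have h2 := hrest0 i
      have h3 : 0 ≤ l v * (i v : ℝ) := mul_nonneg (hl v).le (Nat.cast_nonneg _)
      nlinarith
    · rw [hg, Function.update_of_ne hv]
      have h1 := hJ i hi
      have h2 : l v * (i v : ℝ) ≤ ∑ v, l v * (i v : ℝ) :=
        Finset.single_le_sum (f := fun v => l v * (i v : ℝ))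
          (fun v _ => mul_nonneg (hl v).le (Nat.cast_nonneg _)) (Finset.mem_univ v)
      linarith
  have hterm : ∀ i ∈ J, (2 : ℝ) ^ (∑ v, a v * (i v : ℝ)) ≤
      (2 : ℝ) ^ (α * Y) * ∏ v, r v ^ g i v := by
    intro i hi
    have e1 : ∏ v, r v ^ g i v = (2 : ℝ) ^ (-(α * l v0) * ((K i : ℝ) - i v0) +
        ∑ v ∈ Finset.univ.erase v0, -(α * l v - a v) * (i v : ℝ)) := by
      rw [← Finset.mul_prod_erase Finset.univ _ (Finset.mem_univ v0),
        Real.rpow_add (by norm_num), Real.rpow_sum_of_pos (by norm_num)]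
      congr 1
      · rw [hg, Function.update_self, hr, if_pos rfl, ← Real.rpow_mul_natCast (by norm_num),
          Nat.cast_sub (hKi i hi)]
      · refine Finset.prod_congr rfl fun v hv => ?_
        rw [hg, Function.update_of_ne (Finset.ne_of_mem_erase hv), hr,
          if_neg (Finset.ne_of_mem_erase hv), ← Real.rpow_mul_natCast (by norm_num)]
    rw [e1, ← Real.rpow_add (by norm_num)]
    refine Real.rpow_le_rpow_of_exponent_le (by norm_num) ?_
    rw [← Finset.add_sum_erase Finset.univ _ (Finset.mem_univ v0), hv0]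
    have e2 : ∑ v ∈ Finset.univ.erase v0, -(α * l v - a v) * (i v : ℝ) =
        ∑ v ∈ Finset.univ.erase v0, a v * (i v : ℝ) - α * rest i := by
      rw [hrest, Finset.mul_sum, ← Finset.sum_sub_distrib]
      refine Finset.sum_congr rfl fun v _ => ?_
      ring
    rw [e2]
    have h1 := mul_le_mul_of_nonneg_left (hKY i hi) hα.le
    have h2 : α * (l v0 * (K i : ℝ) + rest i) = α * l v0 * (i v0 : ℝ) +
      α * l v0 * ((K i : ℝ) - i v0) + α * rest i := by ring
    linarith
  calc ∑ i ∈ J, (2 : ℝ) ^ (∑ v, a v * (i v : ℝ))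
      ≤ ∑ i ∈ J, (2 : ℝ) ^ (α * Y) * ∏ v, r v ^ g i v := Finset.sum_le_sum hterm
    _ = (2 : ℝ) ^ (α * Y) * ∑ j ∈ J.image g, ∏ v, r v ^ j v := by
        rw [← Finset.mul_sum, Finset.sum_image hinj]
    _ ≤ (2 : ℝ) ^ (α * Y) * ∑ j ∈ Fintype.piFinset fun v => Finset.range (⌊Y / l v⌋₊ + 1),
          ∏ v, r v ^ j v := by
        refine mul_le_mul_of_nonneg_left (Finset.sum_le_sum_of_subset_of_nonneg ?_ ?_)
          (by positivity)
        · intro j hj
          obtain ⟨i, hi, rfl⟩ := Finset.mem_image.1 hj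
          exact hbox i hi
        · intro j _ _
          exact Finset.prod_nonneg fun v _ => (pow_pos (hr0 v) _).le
    _ = (2 : ℝ) ^ (α * Y) * ∏ v, ∑ n ∈ Finset.range (⌊Y / l v⌋₊ + 1), r v ^ n := by
        rw [Finset.prod_univ_sum]
    _ ≤ (2 : ℝ) ^ (α * Y) * ∏ v, (c v * (Y + 1) ^ e v) := by
        refine mul_le_mul_of_nonneg_left (Finset.prod_le_prod (fun v _ => ?_)
          (fun v _ => hgeo Y hY v)) (by positivity)
        exact Finset.sum_nonneg fun n _ => (pow_pos (hr0 v) _).le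
    _ = (∏ v, c v) * (2 : ℝ) ^ (α * Y) * (Y + 1) ^ (Nat.card {v // a v = α * l v} - 1) := by
        rw [Finset.prod_mul_distrib, Finset.prod_pow_eq_pow_sum, hsum]
        ring

end Pool.Agent.N457.ELW
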