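import Pool.Agent.H221R2.FB_VdcGen
import Pool.Agent.N604.MW.Stm6

/-!
Project KW, part DVDC: van der Corput's estimate for monomials with an exponent independent of
the degree. The first theorem is the theorem `exp_sum_boundG` of `Pool/Agent/H221R2/FB_VdcGen.lean`
with its explicit exponent.
-/

set_option autoImplicit false
set_option linter.unusedVariables false

namespace Pool.Agent.N457.KW

open Finset Pool.Agent.H221R2.FB
open Pool.Agent.H469R2.NK (e norm_e e_add conj_e vdcH kusmin_landau_anti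
  norm_sum_neg Av Av_le Cq Cq_pos iterate harm_le)

theorem alg_aux3 (Z N W Y G X B c : ℝ) (hZ : Z ≠ 0) (hN : N ≠ 0) (hc : c ≠ 0) (hW : W ≠ 0) :
    2 * (Y * N) / (Z * c) / N * (G * X * B / W) = (2 / c) * B * G * (X * Y / (Z * W)) := by
  field_simp

/-- positive frequencies -/
theorem exp_sum_boundE (Q : ℕ) (hQ : 1 ≤ Q) (c0 C0 : ℝ) (hc0 : 0 < c0) (hC0 : 1 ≤ C0) :
    ∃ C : ℝ, 0 < C ∧ ∀ (N L : ℕ) (u Z : ℝ) (φ : ℕ → ℝ → ℝ), 1 ≤ N →
      (N : ℝ) ≤ u → L ≤ N → u + L ≤ 3 * N → Hyp (Q + 2) N c0 C0 φ → 1 ≤ Z → Z ≤ (N : ℝ) ^ Q →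
      ‖∑ n ∈ range L, e (Z * φ 0 (u + n))‖ ≤
        C * ((N : ℝ) ^ (1 - 1 / (4 * (Q : ℝ) * 2 ^ Q)) + N / Z) := by
  set η : ℝ := 1 / (4 * Q * 2 ^ Q) with hη
  have hQ' : (1 : ℝ) ≤ Q := by exact_mod_cast hQ
  have h2Q : (1 : ℝ) ≤ 2 ^ Q := one_le_pow₀ (by norm_num)
  have hη0 : 0 < η := by rw [hη]; positivity
  have hη1 : η ≤ 1 / 4 := by
    rw [hη, div_le_div_iff₀ (by positivity) (by norm_num)]
    nlinarith
  set N0 : ℝ := max 16 ((2 * C0) ^ 4) with hN0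
  set K : ℝ := Cq Q * (2 + (2 / c0) * 2 ^ Q * (1 + 4 * Q) ^ Q) with hK
  have hCq := Cq_pos Q
  have hK0 : 0 < K := by rw [hK]; positivity
  set C : ℝ := max (max (2 / c0) N0) (K ^ ((1 : ℝ) / 2 ^ Q)) with hC
  refine ⟨C, by rw [hC]; positivity, ?_⟩
  intro N L u Z φ hN ha hL haL h hZ1 hZ2
  have hN' : (1 : ℝ) ≤ N := by exact_mod_cast hN
  have hNpos : (0 : ℝ) < N := by linarith
  have hC6 : 2 / c0 ≤ C := (le_max_left _ _).trans (le_max_left _ _)
  have hCN0 : N0 ≤ C := (le_max_right _ _).trans (le_max_left _ _)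
  have hCK : K ^ ((1 : ℝ) / 2 ^ Q) ≤ C := le_max_right _ _
  have hCpos : 0 < C := lt_of_lt_of_le (by positivity) hC6
  have hZ : 0 < Z := by linarith
  have hSS : ∑ n ∈ range L, e (Z * φ 0 (u + n)) = SG φ Z u L [] := by
    unfold SG
    simp only [List.sum_nil, Nat.sub_zero]
    rfl
  rw [hSS]
  have htriv : ‖SG φ Z u L []‖ ≤ N := by
    unfold SG
    refine (norm_sum_le _ _).trans ?_
    simp only [norm_e, sum_const, card_range, nsmul_eq_mul, mul_one, List.sum_nil, Nat.sub_zero]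
    exact_mod_cast hL
  have hp1 : 0 ≤ C * (N / Z) := by positivity
  have hp2 : 0 ≤ C * (N : ℝ) ^ (1 - η) := by positivity
  rcases lt_or_ge (N : ℝ) N0 with hsmall | hbig
  · refine htriv.trans ?_
    calc (N : ℝ) ≤ N0 * 1 := by linarith
      _ ≤ C * (N : ℝ) ^ (1 - η) := by
        gcongr
        exact Real.one_le_rpow hN' (by linarith)
      _ ≤ _ := by rw [mul_add]; linarith
  have h16 : (16 : ℝ) ≤ N := (le_max_left _ _).trans hbig
  have hfac : (2 * C0) ^ 4 ≤ (N : ℝ) := (le_max_right _ _).trans hbig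
  have hfac4 : 2 * C0 ≤ (N : ℝ) ^ (1 / 4 : ℝ) := by
    have h1 : ((2 * C0) ^ (4 : ℕ)) ^ (1 / 4 : ℝ) ≤ (N : ℝ) ^ (1 / 4 : ℝ) := by gcongr
    rw [← Real.rpow_natCast, ← Real.rpow_mul (by positivity)] at h1
    norm_num at h1
    norm_num
    exact h1
  rcases le_or_gt Z ((N : ℝ) ^ (3 / 4 : ℝ)) with hcase | hcase
  · -- direct Kusmin–Landau
    have h1 := SG_le hc0 Z hZ N h u L hN ha haL [] (by simp) (by simp) (by
      simp only [List.length_nil, zero_add, List.prod_nil, Nat.cast_one, mul_one, pow_one]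
      have e2 : (N : ℝ) ^ (3 / 4 : ℝ) * (N : ℝ) ^ (1 / 4 : ℝ) = (N : ℝ) := by
        rw [← Real.rpow_add hNpos]; norm_num
      rw [← mul_div_assoc, ← mul_div_assoc, div_le_one (by positivity)]
      calc 2 * (Z * C0) = Z * (2 * C0) := by ring
        _ ≤ (N : ℝ) ^ (3 / 4 : ℝ) * (N : ℝ) ^ (1 / 4 : ℝ) := by gcongr
        _ = N := e2)
    simp only [List.length_nil, zero_add, List.prod_nil, Nat.cast_one, mul_one, pow_one] at h1
    refine h1.trans ?_
    have e3 : 2 * (N : ℝ) / (Z * c0) = (2 / c0) * (N / Z) := by field_simp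
    rw [e3, mul_add]
    have e4 : (2 / c0) * (N / Z) ≤ C * (N / Z) := by gcongr
    linarith
  · -- Weyl - van der Corput
    set hh : ℝ := ((N : ℝ) ^ (Q + 1 / 2 : ℝ) / Z) ^ ((1 : ℝ) / Q) with hhd
    have hhQ : hh ^ Q = (N : ℝ) ^ (Q + 1 / 2 : ℝ) / Z := by
      rw [hhd, ← Real.rpow_natCast, ← Real.rpow_mul (by positivity),
        one_div_mul_cancel (by positivity), Real.rpow_one]
    have hh0 : 0 ≤ hh := by rw [hhd]; positivity
    have hlow : (N : ℝ) ^ (1 / 2 : ℝ) ≤ hh ^ Q := by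
      rw [hhQ, le_div_iff₀ hZ]
      calc (N : ℝ) ^ (1 / 2 : ℝ) * Z ≤ (N : ℝ) ^ (1 / 2 : ℝ) * (N : ℝ) ^ Q := by gcongr
        _ = _ := by
          rw [← Real.rpow_natCast, ← Real.rpow_add hNpos]
          congr 1; ring
    have hupp : hh ^ Q ≤ (N : ℝ) ^ Q := by
      rw [hhQ, div_le_iff₀ hZ]
      calc (N : ℝ) ^ (Q + 1 / 2 : ℝ) ≤ (N : ℝ) ^ (Q + 3 / 4 : ℝ) := by
            apply Real.rpow_le_rpow_of_exponent_le hN'; linarith
        _ = (N : ℝ) ^ Q * (N : ℝ) ^ (3 / 4 : ℝ) := by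
            rw [Real.rpow_add hNpos, Real.rpow_natCast]
        _ ≤ _ := by gcongr
    have hhN : hh ≤ N := le_of_pow_le_pow_left₀ (by omega) (by positivity) hupp
    have hN12 : (1 : ℝ) ≤ (N : ℝ) ^ (1 / 2 : ℝ) := Real.one_le_rpow hN' (by norm_num)
    have hh1 : 1 ≤ hh := by
      by_contra hlt
      rw [not_le] at hlt
      have : hh ^ Q ≤ 1 := pow_le_one₀ hh0 hlt.le
      have h4 : (4 : ℝ) ≤ (N : ℝ) ^ (1 / 2 : ℝ) := by
        calc (4 : ℝ) = (16 : ℝ) ^ (1 / 2 : ℝ) := by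
              rw [show (16 : ℝ) = 4 ^ (2 : ℝ) by norm_num, ← Real.rpow_mul (by norm_num)]; norm_num
          _ ≤ _ := by gcongr
      linarith
    set H : ℕ := ⌊hh⌋₊ with hH
    have hH1 : 1 ≤ H := Nat.one_le_floor_iff _ |>.mpr hh1
    have hHle : (H : ℝ) ≤ hh := Nat.floor_le hh0
    have hHN : H ≤ N := by exact_mod_cast hHle.trans hhN
    have hHge : hh / 2 ≤ H := by
      have h1 : hh < H + 1 := Nat.lt_floor_add_one hh
      have h2 : (1 : ℝ) ≤ H := by exact_mod_cast hH1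
      linarith
    have hH1' : (1 : ℝ) ≤ H := by exact_mod_cast hH1
    have hsq : 2 * C0 ≤ (N : ℝ) ^ (1 / 2 : ℝ) := by
      refine hfac4.trans ?_
      apply Real.rpow_le_rpow_of_exponent_le hN'
      norm_num
    have hZh : Z * hh ^ Q = (N : ℝ) ^ (Q + 1 / 2 : ℝ) := by rw [hhQ]; field_simp
    have hcond : 2 * (Z * (C0 / (N : ℝ) ^ (Q + 1) * (H : ℝ) ^ Q)) ≤ 1 := by
      have e1 : (N : ℝ) ^ (Q + 1) = (N : ℝ) ^ (Q + 1 / 2 : ℝ) * (N : ℝ) ^ (1 / 2 : ℝ) := by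
        rw [← Real.rpow_add hNpos, ← Real.rpow_natCast]; congr 1; push_cast; ring
      have e2 : 2 * (Z * (C0 / (N : ℝ) ^ (Q + 1) * (H : ℝ) ^ Q)) =
          (2 * C0) * (Z * (H : ℝ) ^ Q) / (N : ℝ) ^ (Q + 1) := by
        ring
      rw [e2, div_le_one (by positivity), e1, ← hZh]
      calc (2 * C0) * (Z * (H : ℝ) ^ Q) ≤ (N : ℝ) ^ (1 / 2 : ℝ) * (Z * hh ^ Q) := by gcongr
        _ = _ := by ring
    have hb := exp_boundG hc0 (by linarith) Q le_rfl Z hZ N h u L H hN ha hL haL hH1 hHN hcond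
    -- first term
    have hhlow : (N : ℝ) ^ ((1 : ℝ) / (2 * Q)) ≤ hh := by
      have : ((N : ℝ) ^ ((1 : ℝ) / (2 * Q))) ^ Q ≤ hh ^ Q := by
        rw [← Real.rpow_natCast, ← Real.rpow_mul (by positivity)]
        refine le_trans (le_of_eq ?_) hlow
        congr 1; field_simp
      exact le_of_pow_le_pow_left₀ (by omega) hh0 this
    have hQpos : (0 : ℝ) < Q := by linarith
    have hterm1 : 1 / (H : ℝ) ≤ 2 * (N : ℝ) ^ (-(1 : ℝ) / (4 * Q)) := by
      have h1 : (0 : ℝ) < (N : ℝ) ^ ((1 : ℝ) / (4 * Q)) := by positivity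
      have h2 : (N : ℝ) ^ ((1 : ℝ) / (4 * Q)) ≤ (N : ℝ) ^ ((1 : ℝ) / (2 * Q)) := by
        apply Real.rpow_le_rpow_of_exponent_le hN'
        gcongr; norm_num
      rw [neg_div, Real.rpow_neg (by positivity), ← div_eq_mul_inv,
        div_le_div_iff₀ (by positivity) h1]
      linarith
    have hlog : 1 + Real.log H ≤ (1 + 4 * Q) * (N : ℝ) ^ ((1 : ℝ) / (4 * Q)) := by
      have h1 : Real.log H ≤ Real.log N := Real.log_le_log (by positivity) (by exact_mod_cast hHN)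
      have h2 := Real.log_le_rpow_div (x := N) (ε := (1 : ℝ) / (4 * Q)) (by positivity)
        (by positivity)
      have h3 : (N : ℝ) ^ ((1 : ℝ) / (4 * Q)) / ((1 : ℝ) / (4 * Q)) =
          4 * Q * (N : ℝ) ^ ((1 : ℝ) / (4 * Q)) := by
        field_simp
      have h4 : (1 : ℝ) ≤ (N : ℝ) ^ ((1 : ℝ) / (4 * Q)) := Real.one_le_rpow hN' (by positivity)
      rw [h3] at h2
      nlinarith
    have hterm2 : (2 * (N : ℝ) ^ (Q + 1) / (Z * c0) / N) *
          ((∑ l ∈ Ico 1 H, (1 : ℝ) / l) / H) ^ Q ≤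
        (2 / c0) * 2 ^ Q * (1 + 4 * Q) ^ Q * (N : ℝ) ^ (-(1 : ℝ) / (4 * Q)) := by
      have hs0 : 0 ≤ ∑ l ∈ Ico 1 H, (1 : ℝ) / l := sum_nonneg fun _ _ => by positivity
      have h1 : ((∑ l ∈ Ico 1 H, (1 : ℝ) / l) / H) ^ Q ≤
          (((1 + 4 * Q) * (N : ℝ) ^ ((1 : ℝ) / (4 * Q))) / (hh / 2)) ^ Q := by
        gcongr
        exact (harm_le H).trans hlog
      have h2 : (((1 + 4 * Q) * (N : ℝ) ^ ((1 : ℝ) / (4 * Q))) / (hh / 2)) ^ Q =
          (1 + 4 * Q) ^ Q * (N : ℝ) ^ ((1 : ℝ) / 4) * 2 ^ Q / hh ^ Q := by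
        rw [div_pow, mul_pow, div_pow, div_div_eq_mul_div]
        congr 3
        rw [← Real.rpow_natCast, ← Real.rpow_mul (by positivity)]
        congr 1; field_simp
      have h3 : (N : ℝ) ^ ((1 : ℝ) / 4) * (N : ℝ) ^ Q * (N : ℝ) ^ ((1 : ℝ) / (4 * Q)) ≤
          Z * hh ^ Q := by
        rw [hZh, ← Real.rpow_natCast, ← Real.rpow_add hNpos, ← Real.rpow_add hNpos]
        apply Real.rpow_le_rpow_of_exponent_le hN'
        have : (1 : ℝ) / (4 * Q) ≤ 1 / 4 := by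
          rw [div_le_div_iff₀ (by positivity) (by norm_num)]; linarith
        linarith
      have hNQ : (0 : ℝ) < (N : ℝ) ^ ((1 : ℝ) / (4 * Q)) := by positivity
      calc _ ≤ (2 * (N : ℝ) ^ (Q + 1) / (Z * c0) / N) *
            ((1 + 4 * Q) ^ Q * (N : ℝ) ^ ((1 : ℝ) / 4) * 2 ^ Q / hh ^ Q) := by
              rw [← h2]; gcongr
        _ = (2 / c0) * 2 ^ Q * (1 + 4 * Q) ^ Q *
            (((N : ℝ) ^ ((1 : ℝ) / 4) * (N : ℝ) ^ Q) / (Z * hh ^ Q)) := by
            rw [pow_succ (N : ℝ) Q]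
            exact alg_aux3 _ _ _ _ _ _ _ _ hZ.ne' hNpos.ne' hc0.ne' (by positivity)
        _ ≤ _ := by
            gcongr
            rw [neg_div, Real.rpow_neg (by positivity), ← one_div,
              div_le_div_iff₀ (by positivity) hNQ]
            linarith
    have hfin : (‖SG φ Z u L []‖ / N) ^ (2 ^ Q) ≤ K * (N : ℝ) ^ (-(1 : ℝ) / (4 * Q)) := by
      refine hb.trans ?_
      calc _ ≤ Cq Q * (2 * (N : ℝ) ^ (-(1 : ℝ) / (4 * Q)) +
            (2 / c0) * 2 ^ Q * (1 + 4 * Q) ^ Q * (N : ℝ) ^ (-(1 : ℝ) / (4 * Q))) := by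
            gcongr
        _ = _ := by rw [hK]; ring
    have hroot : ‖SG φ Z u L []‖ / N ≤ K ^ ((1 : ℝ) / 2 ^ Q) * (N : ℝ) ^ (-η) := by
      have h1 : (‖SG φ Z u L []‖ / N) =
          ((‖SG φ Z u L []‖ / N) ^ (2 ^ Q)) ^ ((1 : ℝ) / 2 ^ Q) := by
        rw [← Real.rpow_natCast, ← Real.rpow_mul (by positivity)]
        push_cast
        rw [mul_one_div_cancel (by positivity), Real.rpow_one]
      rw [h1]
      calc _ ≤ (K * (N : ℝ) ^ (-(1 : ℝ) / (4 * Q))) ^ ((1 : ℝ) / 2 ^ Q) := by gcongr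
        _ = K ^ ((1 : ℝ) / 2 ^ Q) * (N : ℝ) ^ (-(1 : ℝ) / (4 * Q) * (1 / 2 ^ Q)) := by
            rw [Real.mul_rpow hK0.le (by positivity), ← Real.rpow_mul (by positivity)]
        _ ≤ _ := by
            gcongr
            have : -(1 : ℝ) / (4 * Q) * (1 / 2 ^ Q) = -(1 / (4 * Q * 2 ^ Q)) := by
              field_simp
            rw [this, hη]
    rw [div_le_iff₀ hNpos] at hroot
    calc ‖SG φ Z u L []‖ ≤ K ^ ((1 : ℝ) / 2 ^ Q) * (N : ℝ) ^ (-η) * N := hroot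
      _ ≤ C * (N : ℝ) ^ (-η) * N := by gcongr
      _ = C * (N : ℝ) ^ (1 - η) := by
        rw [mul_assoc, sub_eq_neg_add, Real.rpow_add hNpos, Real.rpow_one]
      _ ≤ _ := by rw [mul_add]; linarith

/-- the phase and its derivatives -/
noncomputable def ph (k : ℕ) (B J : ℝ) (m : ℕ) (t : ℝ) : ℝ :=
  (-1) ^ (m + 1) * (k.descFactorial m : ℝ) * ((B + J - t) / J) ^ (k - m) / J ^ m

theorem ph_der (k : ℕ) {B J : ℝ} (hJ : 0 < J) (m : ℕ) (t : ℝ) :
    HasDerivAt (ph k B J m) (ph k B J (m + 1) t) t := by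
  have h1 : HasDerivAt (fun t : ℝ => (B + J - t) / J) (-1 / J) t := by
    have h2 : HasDerivAt (fun t : ℝ => B + J - t) (-1) t := by
      simpa using (hasDerivAt_id t).const_sub (B + J)
    exact h2.div_const J
  have h3 := ((h1.pow (k - m)).const_mul ((-1) ^ (m + 1) * (k.descFactorial m : ℝ))).div_const
    (J ^ m)
  have e1 : ph k B J (m + 1) t = (-1) ^ (m + 1) * (k.descFactorial m : ℝ) *
      (((k - m : ℕ) : ℝ) * ((B + J - t) / J) ^ (k - m - 1) * (-1 / J)) / J ^ m := by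
    unfold ph
    rw [Nat.descFactorial_succ, Nat.cast_mul, Nat.sub_sub]
    field_simp
    ring
  rw [e1]
  exact h3

theorem ph_hyp {r k : ℕ} (hk : r + 8 ≤ k) {B J : ℝ} (hJ : 0 < J) (h1 : 3 * J ≤ B)
    (h2 : B ≤ 10 * J) : Hyp (r + 1 + 2) J 1 ((k : ℝ) ^ k * 10 ^ k) (ph k B J) := by
  refine ⟨fun m _ t _ => ph_der k hJ m t, fun m hm1 hm2 t ht => ?_⟩
  have hb1 : 1 ≤ (B + J - t) / J := by
    rw [le_div_iff₀ hJ]
    linarith [ht.2]
  have hb2 : (B + J - t) / J ≤ 10 := by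
    rw [div_le_iff₀ hJ]
    linarith [ht.1]
  have e1 : (-1) ^ (m + 1) * ph k B J m t * J ^ m =
      (k.descFactorial m : ℝ) * ((B + J - t) / J) ^ (k - m) := by
    unfold ph
    have h3 : ((-1 : ℝ) ^ (m + 1)) * (-1) ^ (m + 1) = 1 := by
      rw [← mul_pow]; norm_num
    have h4 : J ^ m ≠ 0 := by positivity
    calc _ = (((-1 : ℝ) ^ (m + 1)) * (-1) ^ (m + 1)) * ((k.descFactorial m : ℝ) *
          ((B + J - t) / J) ^ (k - m)) * (J ^ m / J ^ m) := by ring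
      _ = _ := by rw [h3, div_self h4, one_mul, mul_one]
  rw [e1]
  have hd1 : (1 : ℝ) ≤ (k.descFactorial m : ℝ) := by
    exact_mod_cast Nat.descFactorial_pos.2 (by omega : m ≤ k)
  have hd2 : (k.descFactorial m : ℝ) ≤ (k : ℝ) ^ k := by
    have h5 : k.descFactorial m ≤ k ^ m := Nat.descFactorial_le_pow k m
    have h6 : k ^ m ≤ k ^ k := Nat.pow_le_pow_right (by omega) (by omega)
    exact_mod_cast h5.trans h6
  have hp1 : 1 ≤ ((B + J - t) / J) ^ (k - m) := one_le_pow₀ hb1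
  have hp2 : ((B + J - t) / J) ^ (k - m) ≤ 10 ^ k :=
    (pow_le_pow_left₀ (by linarith) hb2 _).trans
      (pow_le_pow_right₀ (by norm_num) (Nat.sub_le _ _))
  exact ⟨one_le_mul_of_one_le_of_one_le hd1 hp1,
    mul_le_mul hd2 hp2 (by linarith) (by positivity)⟩

/-- cutting a sum into blocks -/
theorem blocks (h : ℕ → ℂ) (J : ℕ) (W : ℝ) (hW : 0 ≤ W) : ∀ (q M : ℕ), M ≤ q * J →
    (∀ a L : ℕ, L ≤ J → a + L ≤ M → ‖∑ n ∈ range L, h (a + n)‖ ≤ W) →
    ‖∑ n ∈ range M, h n‖ ≤ q * W := by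
  intro q
  induction q with
  | zero =>
    intro M hM _
    have : M = 0 := by omega
    subst this
    simp
  | succ q ih =>
    intro M hM hb
    rcases le_or_gt M J with h1 | h1
    · have h2 := hb 0 M h1 (by omega)
      simp only [zero_add] at h2
      refine h2.trans ?_
      push_cast
      have : 0 ≤ (q : ℝ) * W := by positivity
      linarith
    · have h2 : M = (M - J) + J := by omega
      rw [h2, sum_range_add]
      have h3 := ih (M - J) (by rw [Nat.succ_mul] at hM; omega)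
        (fun a L hL haL => hb a L hL (by omega))
      have h4 := hb (M - J) J le_rfl (by omega)
      refine (norm_add_le _ _).trans ?_
      push_cast
      linarith

theorem e_eq (x : ℝ) : Pool.Agent.N604.MW.e x = e x := by
  unfold Pool.Agent.N604.MW.e Pool.Agent.H469R2.NK.e
  push_cast
  ring_nf

/-- the sum from the right end -/
theorem flip (g : ℕ → ℂ) (X : ℕ) :
    ∑ x ∈ Icc X (2 * X), g x = ∑ n ∈ range (X + 1), g (2 * X - n) := by
  refine sum_bij' (fun x _ => 2 * X - x) (fun n _ => 2 * X - n) ?_ ?_ ?_ ?_ ?_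
  · intro x hx
    rw [mem_Icc] at hx
    rw [mem_range]
    omega
  · intro n hn
    rw [mem_range] at hn
    rw [mem_Icc]
    omega
  · intro x hx
    rw [mem_Icc] at hx
    show 2 * X - (2 * X - x) = x
    omega
  · intro n hn
    rw [mem_range] at hn
    show 2 * X - (2 * X - n) = n
    omega
  · intro x hx
    rw [mem_Icc] at hx
    show g x = g (2 * X - (2 * X - x))
    congr 1
    omega

theorem dvdc : Pool.Agent.N604.MW.S_DVDC := by
  intro r k hr hk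
  obtain ⟨C, hC, hmain⟩ := exp_sum_boundE (r + 1) (by omega) 1 ((k : ℝ) ^ k * 10 ^ k) one_pos
    (by
      have h1 : (1 : ℝ) ≤ (k : ℝ) ^ k := one_le_pow₀ (by exact_mod_cast (by omega : 1 ≤ k))
      have h2 : (1 : ℝ) ≤ 10 ^ k := one_le_pow₀ (by norm_num)
      exact one_le_mul_of_one_le_of_one_le h1 h2)
  refine ⟨6 * C * 5 ^ k + 2 * 5 ^ k, by positivity, 16 + 5 ^ (r + 1), fun X y hX hy1 hy2 => ?_⟩
  have hX16 : 16 ≤ X := (Nat.le_add_right _ _).trans hX
  have hX5 : 5 ^ (r + 1) ≤ X := (Nat.le_add_left _ _).trans hX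
  have hXr : (16 : ℝ) ≤ X := by exact_mod_cast hX16
  have hX0 : (0 : ℝ) < X := by linarith
  have hy0 : 0 < |y| := lt_of_lt_of_le (by positivity) hy1
  set J : ℕ := X / 4 with hJ
  have hJ1 : 4 * J ≤ X := by omega
  have hJ2 : X ≤ 4 * J + 3 := by omega
  have hJ4 : 4 ≤ J := by omega
  have hJr1 : 4 * (J : ℝ) ≤ X := by exact_mod_cast hJ1
  have hJr2 : (X : ℝ) ≤ 4 * J + 3 := by exact_mod_cast hJ2
  have hJr4 : (4 : ℝ) ≤ J := by exact_mod_cast hJ4
  have hJ0 : (0 : ℝ) < J := by linarith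
  have hX5J : (X : ℝ) ≤ 5 * J := by linarith
  have h5k : (1 : ℝ) ≤ 5 ^ k := one_le_pow₀ (by norm_num)
  -- exponents
  have eX1 : (X : ℝ) ^ (1 - (k : ℝ)) = X / (X : ℝ) ^ k := by
    rw [Real.rpow_sub hX0, Real.rpow_one, Real.rpow_natCast]
  have eX2 : (X : ℝ) ^ (-(k : ℝ) + r) = (X : ℝ) ^ r / (X : ℝ) ^ k := by
    rw [Real.rpow_add hX0, Real.rpow_neg hX0.le, Real.rpow_natCast, Real.rpow_natCast]
    field_simp
  have hXk : (0 : ℝ) < (X : ℝ) ^ k := by positivity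
  have hJk : (0 : ℝ) < (J : ℝ) ^ k := by positivity
  have hXJk : (X : ℝ) ^ k ≤ 5 ^ k * (J : ℝ) ^ k := by
    rw [← mul_pow]
    exact pow_le_pow_left₀ hX0.le hX5J k
  set V : ℝ := (X : ℝ) ^ (1 - (k : ℝ)) / |y| with hV
  have hV0 : 0 < V := by rw [hV]; positivity
  set Y : ℝ := (X : ℝ) ^ (1 - 1 / (4 * ((r : ℝ) + 2) * 2 ^ (r + 2))) with hY
  have hY0 : 0 < Y := by rw [hY]; positivity
  rw [flip]
  rcases lt_or_ge (|y| * (J : ℝ) ^ k) 1 with hZ | hZ
  · -- trivial bound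
    have h1 : ‖∑ n ∈ range (X + 1), Pool.Agent.N604.MW.e (y * ((2 * X - n : ℕ) : ℝ) ^ k)‖ ≤
        X + 1 := by
      refine (norm_sum_le _ _).trans ?_
      simp only [e_eq, norm_e, sum_const, card_range, nsmul_eq_mul, mul_one]
      push_cast
      exact le_rfl
    have h2 : (X : ℝ) ≤ 5 ^ k * V := by
      rw [hV, eX1, div_div, ← mul_div_assoc, le_div_iff₀ (by positivity)]
      have h3 : |y| * (X : ℝ) ^ k ≤ 5 ^ k := by
        calc |y| * (X : ℝ) ^ k ≤ |y| * (5 ^ k * (J : ℝ) ^ k) := by gcongr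
          _ = 5 ^ k * (|y| * (J : ℝ) ^ k) := by ring
          _ ≤ 5 ^ k * 1 := by gcongr
          _ = 5 ^ k := mul_one _
      calc (X : ℝ) * ((X : ℝ) ^ k * |y|) = X * (|y| * (X : ℝ) ^ k) := by ring
        _ ≤ X * 5 ^ k := by gcongr
        _ = 5 ^ k * X := by ring
    refine h1.trans ?_
    have h3 : 0 ≤ 6 * C * 5 ^ k * (Y + V) := by positivity
    have h4 : 0 ≤ 2 * 5 ^ k * Y := by positivity
    nlinarith
  · -- van der Corput
    have hZ2 : |y| * (J : ℝ) ^ k ≤ (J : ℝ) ^ (r + 1) := by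
      have h5r : (5 : ℝ) ^ r ≤ J := by
        have h1 : (5 : ℝ) ^ (r + 1) ≤ X := by exact_mod_cast hX5
        rw [pow_succ] at h1
        linarith
      calc |y| * (J : ℝ) ^ k ≤ ((X : ℝ) ^ r / (X : ℝ) ^ k) * (X : ℝ) ^ k := by
            rw [eX2] at hy2
            gcongr
            linarith
        _ = (X : ℝ) ^ r := by field_simp
        _ ≤ (5 * J) ^ r := by gcongr
        _ = 5 ^ r * (J : ℝ) ^ r := mul_pow _ _ _
        _ ≤ J * (J : ℝ) ^ r := by gcongr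
        _ = (J : ℝ) ^ (r + 1) := by ring
    have hW : 0 ≤ C * 5 ^ k * (Y + V) := by positivity
    have hb := blocks (fun n => Pool.Agent.N604.MW.e (y * ((2 * X - n : ℕ) : ℝ) ^ k)) J
      (C * 5 ^ k * (Y + V)) hW 6 (X + 1) (by omega) ?_
    · refine hb.trans ?_
      have : 0 ≤ 2 * 5 ^ k * (Y + V) := by positivity
      push_cast
      linarith
    · intro a L hL haL
      have hB1 : 3 * (J : ℝ) ≤ ((2 * X - a : ℕ) : ℝ) := by
        exact_mod_cast (by omega : 3 * J ≤ 2 * X - a)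
      have hB2 : ((2 * X - a : ℕ) : ℝ) ≤ 10 * (J : ℝ) := by
        exact_mod_cast (by omega : 2 * X - a ≤ 10 * J)
      have h1 := hmain J L J (|y| * (J : ℝ) ^ k) (ph k ((2 * X - a : ℕ) : ℝ) J) (by omega) le_rfl hL
        (by
          have : (L : ℝ) ≤ J := by exact_mod_cast hL
          linarith) (ph_hyp hk hJ0 hB1 hB2) hZ (by exact_mod_cast hZ2)
      have h2 : ∀ n ∈ range L, (|y| * (J : ℝ) ^ k) * ph k ((2 * X - a : ℕ) : ℝ) J 0 (J + n) =
          -(|y| * ((2 * X - (a + n) : ℕ) : ℝ) ^ k) := by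
        intro n hn
        rw [mem_range] at hn
        unfold ph
        have h3 : ((2 * X - (a + n) : ℕ) : ℝ) = ((2 * X - a : ℕ) : ℝ) - n := by
          rw [show 2 * X - (a + n) = (2 * X - a) - n by omega, Nat.cast_sub (by omega)]
        rw [h3, Nat.descFactorial_zero, Nat.sub_zero, pow_zero, div_one, zero_add, pow_one,
          Nat.cast_one, mul_one,
          show ((2 * X - a : ℕ) : ℝ) + J - (J + n) = ((2 * X - a : ℕ) : ℝ) - n by ring, div_pow]
        field_simp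
      have h4 : ‖∑ n ∈ range L, Pool.Agent.N604.MW.e (y * ((2 * X - (a + n) : ℕ) : ℝ) ^ k)‖ =
          ‖∑ n ∈ range L, e ((|y| * (J : ℝ) ^ k) * ph k ((2 * X - a : ℕ) : ℝ) J 0 (J + n))‖ := by
        have h5 : ∑ n ∈ range L, e ((|y| * (J : ℝ) ^ k) * ph k ((2 * X - a : ℕ) : ℝ) J 0 (J + n)) =
            ∑ n ∈ range L, e (-(|y| * ((2 * X - (a + n) : ℕ) : ℝ) ^ k)) :=
          sum_congr rfl fun n hn => by rw [h2 n hn]
        rw [h5]
        simp only [e_eq]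
        rcases le_or_gt 0 y with h | h
        · rw [abs_of_nonneg h, norm_sum_neg]
        · rw [abs_of_neg h]
          congr 1
          refine sum_congr rfl fun n _ => ?_
          congr 1
          ring
      show ‖∑ n ∈ range L, Pool.Agent.N604.MW.e (y * ((2 * X - (a + n) : ℕ) : ℝ) ^ k)‖ ≤ _
      rw [h4]
      refine h1.trans ?_
      have hY1 : (J : ℝ) ^ (1 - 1 / (4 * ((r + 1 : ℕ) : ℝ) * 2 ^ (r + 1))) ≤ Y := by
        have hexp : 1 - 1 / (4 * ((r + 1 : ℕ) : ℝ) * 2 ^ (r + 1)) ≤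
            1 - 1 / (4 * ((r : ℝ) + 2) * 2 ^ (r + 2)) := by
          have : 1 / (4 * ((r : ℝ) + 2) * 2 ^ (r + 2)) ≤
              1 / (4 * ((r + 1 : ℕ) : ℝ) * 2 ^ (r + 1)) := by
            apply one_div_le_one_div_of_le (by positivity)
            push_cast
            have h2 : (2 : ℝ) ^ (r + 1) ≤ 2 ^ (r + 2) := pow_le_pow_right₀ (by norm_num) (by omega)
            gcongr
            norm_num
          linarith
        have hpos : 0 ≤ 1 - 1 / (4 * ((r + 1 : ℕ) : ℝ) * 2 ^ (r + 1)) := by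
          rw [sub_nonneg, div_le_one (by positivity)]
          have h1 : (1 : ℝ) ≤ ((r + 1 : ℕ) : ℝ) := by exact_mod_cast (by omega : 1 ≤ r + 1)
          have h2 : (1 : ℝ) ≤ 2 ^ (r + 1) := one_le_pow₀ (by norm_num)
          nlinarith
        calc (J : ℝ) ^ (1 - 1 / (4 * ((r + 1 : ℕ) : ℝ) * 2 ^ (r + 1))) ≤
            (X : ℝ) ^ (1 - 1 / (4 * ((r + 1 : ℕ) : ℝ) * 2 ^ (r + 1))) :=
              Real.rpow_le_rpow hJ0.le (by linarith) hpos
          _ ≤ Y := Real.rpow_le_rpow_of_exponent_le (by linarith) hexp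
      have hV1 : (J : ℝ) / (|y| * (J : ℝ) ^ k) ≤ 5 ^ k * V := by
        rw [hV, eX1, div_div, ← mul_div_assoc, div_le_div_iff₀ (by positivity) (by positivity)]
        calc (J : ℝ) * ((X : ℝ) ^ k * |y|) ≤ X * ((5 ^ k * (J : ℝ) ^ k) * |y|) := by
              gcongr
              linarith
          _ = _ := by ring
      have hY2 : Y ≤ 5 ^ k * Y := le_mul_of_one_le_left hY0.le h5k
      calc C * ((J : ℝ) ^ (1 - 1 / (4 * ((r + 1 : ℕ) : ℝ) * 2 ^ (r + 1))) +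
            (J : ℝ) / (|y| * (J : ℝ) ^ k)) ≤ C * (5 ^ k * Y + 5 ^ k * V) := by
              gcongr
              exact hY1.trans hY2
        _ = _ := by ring

end Pool.Agent.N457.KW
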