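import Pool.Agent.N91.LC.Stm

set_option autoImplicit false

/-!
Project LC: `Fn n` is locally 1-Lipschitz.
-/

namespace Pool.Agent.N457.LCFN

open Real Pool.Agent.N91.LC

theorem pp_gap {n k : ℕ} (h : k ≠ n) : 2 / 3 * pp n ≤ |pp k - pp n| := by
  have hm : ∀ a b : ℕ, a < b → pp b ≤ pp a / 3 := by
    intro a b hab
    induction b with
    | zero => omega
    | succ b ih =>
      rcases Nat.lt_succ_iff_lt_or_eq.1 hab with h | h
      · have h1 := ih h
        rw [pp_succ]
        linarith [pp_pos a]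
      · rw [h, pp_succ]
  have h0 := pp_pos n
  rcases lt_or_gt_of_ne h with h | h
  · have h1 := hm k n h
    rw [le_abs]
    left
    linarith
  · have h1 := hm n k h
    rw [le_abs]
    right
    linarith

theorem v_gap {x : Pt} (hx : x.ok) {n : ℕ} (hb : 0 < x.b) (hv : x.v ≠ pp n) :
    2 / 3 * pp n ≤ |x.v - pp n| := by
  have h0 := pp_pos n
  rcases hx.comb with h | h | ⟨k, h⟩
  · linarith
  · rw [h, zero_sub, abs_neg, abs_of_pos h0]
    linarith
  · rw [h]
    apply pp_gap
    rintro rfl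
    exact hv h

theorem Dn_pos {n : ℕ} {x : Pt} (h : x.v = pp n) : Dn n x = ell - x.b := by
  unfold Dn; rw [if_pos h]

theorem Dn_neg {n : ℕ} {x : Pt} (h : x.v ≠ pp n) : Dn n x = ell + x.b + |x.v - pp n| := by
  unfold Dn; rw [if_neg h]

theorem Dn_nonneg (n : ℕ) {x : Pt} (hx : x.ok) : 0 ≤ Dn n x := by
  by_cases h : x.v = pp n
  · rw [Dn_pos h]; exact hx.eb
  · rw [Dn_neg h]
    have := ell_pos
    have := hx.b0
    positivity

theorem Fn_nonneg (n : ℕ) {x : Pt} (hx : x.ok) : 0 ≤ Fn n x :=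
  le_min (th_nonneg (Dn_nonneg n hx)) (by linarith [ell_pos])

theorem r_lt (n : ℕ) : 2 / 3 * pp n < ell := by
  have := pp_le n
  unfold p0 at this
  unfold ell
  linarith

theorem Dn_lip {n : ℕ} {x y : Pt} (hx : x.ok) (hy : y.ok) (h : sd x y < 2 / 3 * pp n) :
    Dn n x ≤ Dn n y + sd x y := by
  unfold sd at h ⊢
  have a1 := le_abs_self (x.b - y.b)
  have a2 := neg_abs_le (x.b - y.b)
  have a3 := abs_nonneg (x.v - y.v)
  by_cases h1 : x.v = pp n
  · rw [Dn_pos h1]
    by_cases h2 : y.v = pp n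
    · rw [Dn_pos h2]
      linarith
    · rw [Dn_neg h2]
      have := abs_nonneg (y.v - pp n)
      linarith [hx.b0, hy.b0, abs_nonneg (x.b - y.b)]
  · rw [Dn_neg h1]
    by_cases h2 : y.v = pp n
    · rw [Dn_pos h2]
      rw [h2] at h a3 ⊢
      by_cases hb : 0 < x.b
      · by_cases hb' : 0 < y.b
        · have := v_gap hx hb h1
          linarith [abs_nonneg (x.b - y.b)]
        · have : y.b = 0 := le_antisymm (not_lt.1 hb') hy.b0
          linarith
      · have : x.b = 0 := le_antisymm (not_lt.1 hb) hx.b0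
        linarith
    · rw [Dn_neg h2]
      have := abs_sub_le x.v y.v (pp n)
      linarith

theorem Fn_adm1 {n : ℕ} {x y : Pt} {c : ℝ} (hx : x.ok) (hy : y.ok) (hc : c < 2 / 3 * pp n)
    (h : Adm1 x y c) : Fn n x ≤ Fn n y + c := by
  have h1 := h.sd_le hx.g0 hy.g0
  have h2 := h.nonneg hx.g0 hy.g0
  have h3 := h.thle hx.g0 hy.g0 (Dn_nonneg n hx) (Dn_nonneg n hy)
    (Dn_lip hx hy (h1.trans_lt hc))
  unfold Fn
  rw [← min_add_add_right]
  exact min_le_min h3 (by linarith)

theorem Fn_exit {n : ℕ} {x y : Pt} {c : ℝ} (hx : x.ok) (hy : y.ok) (hc : c < 2 / 3 * pp n)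
    (h : Exit x y c) : Fn n x ≤ Fn n y + c := by
  unfold Exit at h
  have e1 := EE_ge hx
  have e2 := EE_ge hy
  have e3 := EE_nonneg hx
  have e4 := EE_nonneg hy
  have e5 := abs_nonneg (x.v - y.v)
  have hr := r_lt n
  have hb : 0 < x.b := by linarith
  have hb' : 0 < y.b := by linarith
  by_cases h1 : x.v = pp n
  · by_cases h2 : y.v = pp n
    · have h3 : Fn n x ≤ EE x := by
        unfold Fn
        refine (min_le_left _ _).trans ?_
        rw [Dn_pos h1]
        exact le_rfl
      linarith [Fn_nonneg n hy]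
    · have := v_gap hy hb' h2
      rw [h1, abs_sub_comm] at h
      linarith
  · by_cases h2 : y.v = pp n
    · have := v_gap hx hb h1
      rw [h2] at h
      linarith
    · have h3 : Fn n x ≤ 2 * ell := min_le_right _ _
      have h4 : 2 * ell - c ≤ Fn n y := by
        unfold Fn
        refine le_min ?_ (by linarith)
        refine le_trans ?_ (th_ge (Dn_nonneg n hy))
        rw [Dn_neg h2]
        linarith [abs_nonneg (y.v - pp n)]
      linarith

theorem Dn_gam (n : ℕ) (q : ℝ) : Dn n (gam q) = ell + (binf - q / 3) + pp n := by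
  have h0 := pp_pos n
  have h1 : (gam q).v = 0 := rfl
  have h2 : (gam q).b = binf - q / 3 := rfl
  rw [Dn_neg (by rw [h1]; exact h0.ne), h1, h2, zero_sub, abs_neg, abs_of_pos h0]

theorem th_gam (n : ℕ) {q : ℝ} (hq : 0 ≤ q) (hq' : q ≤ q0) :
    exp (2 * th (gam q).g (Dn n (gam q))) =
      exp (2 * q) * (exp (2 * (ell + (binf - q / 3) + pp n)) - 1) + 1 := by
  rw [exp_th (Dn_nonneg n (gam_ok hq hq')), gam_g_sq hq, Dn_gam]
  ring

theorem th_gam_lip (n : ℕ) {q q' : ℝ} (hq : 0 ≤ q) (hq' : q ≤ q0) (hr : 0 ≤ q') (hr' : q' ≤ q0) :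
    th (gam q).g (Dn n (gam q)) ≤ th (gam q').g (Dn n (gam q')) + |q - q'| := by
  have hp := pp_pos n
  have hl := ell_pos
  have hb := binf_lo
  have hq0 : q0 = 1 / 10000 := rfl
  have key : exp (2 * th (gam q).g (Dn n (gam q))) ≤
      exp (2 * (th (gam q').g (Dn n (gam q')) + |q - q'|)) := by
    rw [mul_add, exp_add, th_gam n hq hq', th_gam n hr hr']
    rcases le_total q q' with h | h
    · rw [abs_sub_comm, abs_of_nonneg (show 0 ≤ q' - q by linarith)]
      set y := exp (2 * (q' - q) / 3) with hy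
      set u := exp (2 * q) with hu
      set w := exp (2 * (ell + (binf - q' / 3) + pp n)) with hw
      have r1 : exp (2 * q') = u * y ^ 3 := by
        rw [hu, hy, ← exp_nat_mul, ← exp_add]; congr 1; push_cast; ring
      have r2 : exp (2 * (q' - q)) = y ^ 3 := by
        rw [hy, ← exp_nat_mul]; congr 1; push_cast; ring
      have r3 : exp (2 * (ell + (binf - q / 3) + pp n)) = w * y := by
        rw [hw, hy, ← exp_add]; congr 1; ring
      rw [r1, r2, r3]
      have y1 : 1 ≤ y := one_le_exp (by linarith)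
      have u1 : 1 ≤ u := one_le_exp (by linarith)
      have u2 : u ≤ 1.0003 := exp_q_hi hq hq'
      have w1 : 1 ≤ w := one_le_exp (by norm_num at hb; linarith)
      have y3 : 1 ≤ y ^ 3 := one_le_pow₀ y1
      have uw : 1 ≤ u * w := by nlinarith
      have s1 : y ^ 3 - 1 ≤ 3 / 2 * (y ^ 3 - y) := by
        nlinarith [mul_nonneg (sq_nonneg (y - 1)) (show 0 ≤ y + 2 by linarith)]
      have s2 : 0 ≤ y ^ 3 - y := by
        have : y ^ 3 - y = y * (y - 1) * (y + 1) := by ring
        rw [this]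
        apply mul_nonneg (mul_nonneg (by linarith) (by linarith)) (by linarith)
      have s3 : (u - 1) * (y ^ 3 - 1) ≤ u * w * (y ^ 3 - y) := by
        calc (u - 1) * (y ^ 3 - 1) ≤ (u - 1) * (3 / 2 * (y ^ 3 - y)) :=
              mul_le_mul_of_nonneg_left s1 (by linarith)
          _ = ((u - 1) * (3 / 2)) * (y ^ 3 - y) := by ring
          _ ≤ u * w * (y ^ 3 - y) := by
              apply mul_le_mul_of_nonneg_right _ s2
              norm_num at u2
              linarith
      have s4 : u * (w - 1) ≤ u * y ^ 3 * (w - 1) := by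
        apply mul_le_mul_of_nonneg_right _ (by linarith)
        nlinarith
      calc u * (w * y - 1) + 1 ≤ (u * (w - 1) + 1) * y ^ 3 := by nlinarith
        _ ≤ (u * y ^ 3 * (w - 1) + 1) * y ^ 3 := by
            apply mul_le_mul_of_nonneg_right _ (by linarith)
            linarith
    · rw [abs_of_nonneg (show 0 ≤ q - q' by linarith)]
      set y := exp (2 * (q - q') / 3) with hy
      set u := exp (2 * q') with hu
      set w := exp (2 * (ell + (binf - q / 3) + pp n)) with hw
      have r1 : exp (2 * q) = u * y ^ 3 := by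
        rw [hu, hy, ← exp_nat_mul, ← exp_add]; congr 1; push_cast; ring
      have r2 : exp (2 * (q - q')) = y ^ 3 := by
        rw [hy, ← exp_nat_mul]; congr 1; push_cast; ring
      have r3 : exp (2 * (ell + (binf - q' / 3) + pp n)) = w * y := by
        rw [hw, hy, ← exp_add]; congr 1; ring
      rw [r1, r2, r3]
      have y1 : 1 ≤ y := one_le_exp (by linarith)
      have u1 : 0 < u := exp_pos _
      have w1 : 0 < w := exp_pos _
      have y3 : 1 ≤ y ^ 3 := one_le_pow₀ y1
      have y4 : 0 ≤ u * w * y ^ 3 * (y - 1) := by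
        apply mul_nonneg (by positivity) (by linarith)
      nlinarith
  have := exp_le_exp.1 key
  linarith

theorem Fn_gam_lip (n : ℕ) {q q' : ℝ} (hq : 0 ≤ q) (hq' : q ≤ q0) (hr : 0 ≤ q') (hr' : q' ≤ q0) :
    Fn n (gam q) ≤ Fn n (gam q') + |q - q'| := by
  unfold Fn
  rw [← min_add_add_right]
  exact min_le_min (th_gam_lip n hq hq' hr hr') (by linarith [abs_nonneg (q - q')])

theorem Fn_adm3 {n : ℕ} {x y : Pt} {c : ℝ} (hx : x.ok) (hy : y.ok) (hc : c < 2 / 3 * pp n)
    (h : Adm3 x y c) : Fn n x ≤ Fn n y + c := by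
  rcases h.cases with h | h
  · exact Fn_adm1 hx hy hc h
  · exact Fn_exit hx hy hc h

theorem Fn_adm4 {n : ℕ} {x y : Pt} {c : ℝ} (hx : x.ok) (hy : y.ok) (hc : c < 2 / 3 * pp n)
    (h : Adm4 x y c) : Fn n x ≤ Fn n y + c := by
  rcases h with h | ⟨q, q', c1, c2, hq, hq', h1, h2, h3⟩
  · exact Fn_adm3 hx hy hc h
  · have k1 := h1.nonneg hx (gam_ok hq.1 hq.2)
    have k2 := h2.nonneg (gam_ok hq'.1 hq'.2) hy
    have k3 := abs_nonneg (q - q')
    have f1 := Fn_adm3 (n := n) hx (gam_ok hq.1 hq.2) (by linarith) h1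
    have f2 := Fn_adm3 (n := n) (gam_ok hq'.1 hq'.2) hy (by linarith) h2
    have f3 := Fn_gam_lip n hq.1 hq.2 hq'.1 hq'.2
    linarith

theorem fn : S_FN := by
  intro n x y hd
  refine X.pot_local (φ := fun x => Fn n x.P) (r := 2 / 3 * pp n) ?_ hd
  intro c hc h
  have h0 := h.nonneg
  rcases h with ⟨h1, h2, h3, -⟩ | h
  · have e : x.P = y.P := by rw [h1, h2, h3]
    show |Fn n x.P - Fn n y.P| ≤ c
    rw [e, sub_self, abs_zero]
    exact h0
  · have k1 := hh_nonneg x.n x.hs
    have k2 := hh_nonneg y.n y.hs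
    have f1 := Fn_adm4 (n := n) x.ok y.ok (by linarith) h
    have f2 := Fn_adm4 (n := n) y.ok x.ok (by linarith) h.symm
    show |Fn n x.P - Fn n y.P| ≤ c
    rw [abs_le]
    constructor <;> linarith

theorem fng : S_FNG := by
  intro n q hq hq'
  unfold Fn
  have h1 : RR + pp n - q / 3 = Dn n (gam q) := by
    rw [Dn_gam]
    unfold binf
    ring
  refine le_min ?_ ?_
  · rw [h1]
    exact th_ge (Dn_nonneg n (gam_ok hq hq'))
  · have h2 := RR_hi
    have h3 := pp_le n
    unfold p0 at h3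
    unfold ell
    norm_num at *
    linarith

theorem fnp : S_FNP := by
  intro n f hf
  have key : ∀ s t, 0 ≤ s → s ≤ t → |Fn n (f s).P - Fn n (f t).P| ≤ t - s := by
    intro s t hs hst
    have hp := pp_pos n
    obtain ⟨N, hN⟩ := exists_nat_gt ((t - s) / (2 / 3 * pp n))
    have hN0 : (0 : ℝ) < N := lt_of_le_of_lt (div_nonneg (by linarith) (by linarith)) hN
    rw [div_lt_iff₀ (by linarith)] at hN
    obtain ⟨δ, hδ⟩ : ∃ δ, δ = (t - s) / N := ⟨_, rfl⟩
    have hδ0 : 0 ≤ δ := by rw [hδ]; exact div_nonneg (by linarith) hN0.le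
    have hδr : δ < 2 / 3 * pp n := by
      rw [hδ, div_lt_iff₀ hN0]
      linarith
    have hstep : ∀ i : ℕ, |Fn n (f s).P - Fn n (f (s + i * δ)).P| ≤ i * δ := by
      intro i
      induction i with
      | zero => simp
      | succ i ih =>
        have h1 : dist (f (s + i * δ)) (f (s + (i + 1 : ℕ) * δ)) ≤ δ := by
          refine (hf _ _ (by positivity) (by positivity)).trans (le_of_eq ?_)
          push_cast
          rw [show s + i * δ - (s + (i + 1) * δ) = -δ by ring, abs_neg, abs_of_nonneg hδ0]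
        have h2 := (fn n _ _ (h1.trans_lt hδr)).trans h1
        have h3 := abs_sub_le (Fn n (f s).P) (Fn n (f (s + i * δ)).P)
          (Fn n (f (s + (i + 1 : ℕ) * δ)).P)
        push_cast at h2 h3 ⊢
        linarith
    have h := hstep N
    have e : (N : ℝ) * δ = t - s := by
      rw [hδ]
      field_simp
    rw [e, add_sub_cancel] at h
    exact h
  intro s t hs ht
  rcases le_total s t with h | h
  · rw [abs_sub_comm s t, abs_of_nonneg (show 0 ≤ t - s by linarith)]
    exact key s t hs h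
  · rw [abs_of_nonneg (show 0 ≤ s - t by linarith), abs_sub_comm]
    exact key t s ht h

end Pool.Agent.N457.LCFN
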