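import Pool.Agent.N657.QL.Stm

/-!
Project QL, part TPB: calculus of trigonometric polynomials.
-/

set_option autoImplicit false

namespace Pool.Agent.N457.QLT

open Pool.Agent.N657.QL

section

variable {V : Type} [Fintype V] [DecidableEq V]

theorem cos_mem (y : V) : (fun θ : V → ℝ => Real.cos (θ y)) ∈ TP V :=
  Algebra.subset_adjoin ⟨y, Or.inl rfl⟩

theorem sin_mem (y : V) : (fun θ : V → ℝ => Real.sin (θ y)) ∈ TP V :=
  Algebra.subset_adjoin ⟨y, Or.inr rfl⟩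

theorem line (x y : V) (θ : V → ℝ) :
    HasDerivAt (fun s : ℝ => (θ + s • (Pi.single x 1 : V → ℝ)) y) ((Pi.single x 1 : V → ℝ) y) 0 := by
  have h1 : HasDerivAt (fun s : ℝ => θ y + s * (Pi.single x 1 : V → ℝ) y)
      (1 * (Pi.single x 1 : V → ℝ) y) 0 :=
    ((hasDerivAt_id (0 : ℝ)).mul_const _).const_add _
  rw [one_mul] at h1
  exact h1

theorem at0 (x y : V) (θ : V → ℝ) : (θ + (0 : ℝ) • (Pi.single x 1 : V → ℝ)) y = θ y := by
  simp

theorem at0' (x : V) (θ : V → ℝ) : θ + (0 : ℝ) • (Pi.single x 1 : V → ℝ) = θ := by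
  simp

theorem dcos (x y : V) (θ : V → ℝ) :
    HasDerivAt (fun s : ℝ => Real.cos ((θ + s • (Pi.single x 1 : V → ℝ)) y))
      (-Real.sin (θ y) * (Pi.single x 1 : V → ℝ) y) 0 := by
  have h := (line x y θ).cos
  rwa [at0] at h

theorem dsin (x y : V) (θ : V → ℝ) :
    HasDerivAt (fun s : ℝ => Real.sin ((θ + s • (Pi.single x 1 : V → ℝ)) y))
      (Real.cos (θ y) * (Pi.single x 1 : V → ℝ) y) 0 := by
  have h := (line x y θ).sin
  rwa [at0] at h

theorem key (R : (V → ℝ) → ℝ) (hR : R ∈ TP V) : Continuous R ∧ (∃ C : ℝ, ∀ θ, |R θ| ≤ C) ∧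
    ∀ x, ∃ S ∈ TP V, ∀ θ : V → ℝ,
      HasDerivAt (fun s : ℝ => R (θ + s • (Pi.single x 1 : V → ℝ))) (S θ) 0 := by
  induction hR using Algebra.adjoin_induction with
  | mem R h =>
    obtain ⟨y, h | h⟩ := h
    · subst h
      refine ⟨by fun_prop, ⟨1, fun θ => Real.abs_cos_le_one _⟩, fun x => ?_⟩
      refine ⟨(-(Pi.single x 1 : V → ℝ) y) • fun θ : V → ℝ => Real.sin (θ y),
        (TP V).smul_mem (sin_mem y) _, fun θ => ?_⟩
      have h := dcos x y θ
      have e : ((-(Pi.single x 1 : V → ℝ) y) • fun θ : V → ℝ => Real.sin (θ y)) θ =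
          -Real.sin (θ y) * (Pi.single x 1 : V → ℝ) y := by
        simp only [Pi.smul_apply, smul_eq_mul]
        ring
      rw [e]
      exact h
    · subst h
      refine ⟨by fun_prop, ⟨1, fun θ => Real.abs_sin_le_one _⟩, fun x => ?_⟩
      refine ⟨((Pi.single x 1 : V → ℝ) y) • fun θ : V → ℝ => Real.cos (θ y),
        (TP V).smul_mem (cos_mem y) _, fun θ => ?_⟩
      have h := dsin x y θ
      have e : (((Pi.single x 1 : V → ℝ) y) • fun θ : V → ℝ => Real.cos (θ y)) θ =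
          Real.cos (θ y) * (Pi.single x 1 : V → ℝ) y := by
        simp only [Pi.smul_apply, smul_eq_mul]
        ring
      rw [e]
      exact h
  | algebraMap r =>
    refine ⟨continuous_const, ⟨|r|, fun θ => le_rfl⟩, fun x => ⟨0, (TP V).zero_mem, fun θ => ?_⟩⟩
    exact hasDerivAt_const (0 : ℝ) r
  | add R S hR hS ihR ihS =>
    obtain ⟨cR, ⟨bR, hbR⟩, dR⟩ := ihR
    obtain ⟨cS, ⟨bS, hbS⟩, dS⟩ := ihS
    refine ⟨cR.add cS, ⟨bR + bS, fun θ => ?_⟩, fun x => ?_⟩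
    · rw [Pi.add_apply]
      exact (abs_add_le _ _).trans (add_le_add (hbR θ) (hbS θ))
    · obtain ⟨R', hR', h1⟩ := dR x
      obtain ⟨S', hS', h2⟩ := dS x
      exact ⟨R' + S', (TP V).add_mem hR' hS', fun θ => (h1 θ).add (h2 θ)⟩
  | mul R S hR hS ihR ihS =>
    obtain ⟨cR, ⟨bR, hbR⟩, dR⟩ := ihR
    obtain ⟨cS, ⟨bS, hbS⟩, dS⟩ := ihS
    refine ⟨cR.mul cS, ⟨bR * bS, fun θ => ?_⟩, fun x => ?_⟩
    · rw [Pi.mul_apply, abs_mul]
      exact mul_le_mul (hbR θ) (hbS θ) (abs_nonneg _) ((abs_nonneg _).trans (hbR θ))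
    · obtain ⟨R', hR', h1⟩ := dR x
      obtain ⟨S', hS', h2⟩ := dS x
      refine ⟨R' * S + R * S', (TP V).add_mem ((TP V).mul_mem hR' hS) ((TP V).mul_mem hR hS'),
        fun θ => ?_⟩
      have h := (h1 θ).mul (h2 θ)
      rw [at0'] at h
      exact h

theorem pd_eq {R : (V → ℝ) → ℝ} {x : V} {S : (V → ℝ) → ℝ}
    (h : ∀ θ : V → ℝ, HasDerivAt (fun s : ℝ => R (θ + s • (Pi.single x 1 : V → ℝ))) (S θ) 0) :
    pd x R = S := by
  funext θ
  exact (h θ).deriv

theorem hasd (R : (V → ℝ) → ℝ) (hR : R ∈ TP V) (x : V) (θ : V → ℝ) :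
    HasDerivAt (fun s : ℝ => R (θ + s • (Pi.single x 1 : V → ℝ))) (pd x R θ) 0 := by
  obtain ⟨S, -, h⟩ := (key R hR).2.2 x
  rw [pd_eq h]
  exact h θ

theorem pdmem (R : (V → ℝ) → ℝ) (hR : R ∈ TP V) (x : V) : pd x R ∈ TP V := by
  obtain ⟨S, hS, h⟩ := (key R hR).2.2 x
  rw [pd_eq h]
  exact hS

theorem X_mem (f : V → ℝ) : Xf f ∈ TP V := by
  have e : Xf f = ∑ x, f x • fun θ : V → ℝ => Real.cos (θ x) := by
    funext θ
    simp only [Xf, Finset.sum_apply, Pi.smul_apply, smul_eq_mul]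
  rw [e]
  exact (TP V).sum_mem fun x _ => (TP V).smul_mem (cos_mem x) _

theorem Y_mem (f : V → ℝ) : Yf f ∈ TP V := by
  have e : Yf f = ∑ x, f x • fun θ : V → ℝ => Real.sin (θ x) := by
    funext θ
    simp only [Yf, Finset.sum_apply, Pi.smul_apply, smul_eq_mul]
  rw [e]
  exact (TP V).sum_mem fun x _ => (TP V).smul_mem (sin_mem x) _

theorem mx_mem : mx ∈ TP V := by
  have e : (mx : (V → ℝ) → ℝ) = ((Fintype.card V : ℝ)⁻¹) • Xf (fun _ : V => (1 : ℝ)) := by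
    funext θ
    simp only [mx, Pi.smul_apply, smul_eq_mul]
    ring
  rw [e]
  exact (TP V).smul_mem (X_mem _) _

theorem my_mem : my ∈ TP V := by
  have e : (my : (V → ℝ) → ℝ) = ((Fintype.card V : ℝ)⁻¹) • Yf (fun _ : V => (1 : ℝ)) := by
    funext θ
    simp only [my, Pi.smul_apply, smul_eq_mul]
    ring
  rw [e]
  exact (TP V).smul_mem (Y_mem _) _

theorem dX (f : V → ℝ) (x : V) (θ : V → ℝ) :
    HasDerivAt (fun s : ℝ => Xf f (θ + s • (Pi.single x 1 : V → ℝ))) (-f x * Real.sin (θ x)) 0 := by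
  have h : HasDerivAt (fun s : ℝ => ∑ y, f y * Real.cos ((θ + s • (Pi.single x 1 : V → ℝ)) y))
      (∑ y, f y * (-Real.sin (θ y) * (Pi.single x 1 : V → ℝ) y)) 0 :=
    HasDerivAt.fun_sum fun y _ => (dcos x y θ).const_mul (f y)
  have e : ∑ y, f y * (-Real.sin (θ y) * (Pi.single x 1 : V → ℝ) y) = -f x * Real.sin (θ x) := by
    rw [Finset.sum_eq_single x]
    · rw [Pi.single_eq_same]
      ring
    · intro y _ hy
      rw [Pi.single_eq_of_ne hy]
      ring
    · intro h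
      exact absurd (Finset.mem_univ _) h
  rw [e] at h
  exact h

theorem dY (f : V → ℝ) (x : V) (θ : V → ℝ) :
    HasDerivAt (fun s : ℝ => Yf f (θ + s • (Pi.single x 1 : V → ℝ))) (f x * Real.cos (θ x)) 0 := by
  have h : HasDerivAt (fun s : ℝ => ∑ y, f y * Real.sin ((θ + s • (Pi.single x 1 : V → ℝ)) y))
      (∑ y, f y * (Real.cos (θ y) * (Pi.single x 1 : V → ℝ) y)) 0 :=
    HasDerivAt.fun_sum fun y _ => (dsin x y θ).const_mul (f y)
  have e : ∑ y, f y * (Real.cos (θ y) * (Pi.single x 1 : V → ℝ) y) = f x * Real.cos (θ x) := by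
    rw [Finset.sum_eq_single x]
    · rw [Pi.single_eq_same]
      ring
    · intro y _ hy
      rw [Pi.single_eq_of_ne hy]
      ring
    · intro h
      exact absurd (Finset.mem_univ _) h
  rw [e] at h
  exact h

theorem dmx (x : V) (θ : V → ℝ) :
    HasDerivAt (fun s : ℝ => mx (θ + s • (Pi.single x 1 : V → ℝ)))
      (-Real.sin (θ x) / (Fintype.card V : ℝ)) 0 := by
  have h := (dX (fun _ : V => (1 : ℝ)) x θ).div_const (Fintype.card V : ℝ)
  rw [neg_one_mul] at h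
  exact h

theorem dmy (x : V) (θ : V → ℝ) :
    HasDerivAt (fun s : ℝ => my (θ + s • (Pi.single x 1 : V → ℝ)))
      (Real.cos (θ x) / (Fintype.card V : ℝ)) 0 := by
  have h := (dY (fun _ : V => (1 : ℝ)) x θ).div_const (Fintype.card V : ℝ)
  rw [one_mul] at h
  exact h

theorem dr2 (x : V) (θ : V → ℝ) :
    HasDerivAt (fun s : ℝ => r2 (θ + s • (Pi.single x 1 : V → ℝ)))
      (2 / (Fintype.card V : ℝ) * (my θ * Real.cos (θ x) - mx θ * Real.sin (θ x))) 0 := by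
  have h := ((dmx x θ).pow 2).add ((dmy x θ).pow 2)
  rw [at0'] at h
  have e : 2 / (Fintype.card V : ℝ) * (my θ * Real.cos (θ x) - mx θ * Real.sin (θ x)) =
      ((2 : ℕ) : ℝ) * mx θ ^ (2 - 1) * (-Real.sin (θ x) / (Fintype.card V : ℝ)) +
      ((2 : ℕ) : ℝ) * my θ ^ (2 - 1) * (Real.cos (θ x) / (Fintype.card V : ℝ)) := by
    push_cast
    ring
  rw [e]
  exact h

theorem rotX (f : V → ℝ) (θ : V → ℝ) (φ : ℝ) :
    Xf f (fun x => θ x + φ) = Real.cos φ * Xf f θ - Real.sin φ * Yf f θ := by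
  unfold Xf Yf
  rw [Finset.mul_sum, Finset.mul_sum, ← Finset.sum_sub_distrib]
  refine Finset.sum_congr rfl fun x _ => ?_
  rw [Real.cos_add]
  ring

theorem rotY (f : V → ℝ) (θ : V → ℝ) (φ : ℝ) :
    Yf f (fun x => θ x + φ) = Real.sin φ * Xf f θ + Real.cos φ * Yf f θ := by
  unfold Xf Yf
  rw [Finset.mul_sum, Finset.mul_sum, ← Finset.sum_add_distrib]
  refine Finset.sum_congr rfl fun x _ => ?_
  rw [Real.sin_add]
  ring

theorem rotmx (θ : V → ℝ) (φ : ℝ) :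
    mx (fun x => θ x + φ) = Real.cos φ * mx θ - Real.sin φ * my θ := by
  unfold mx my
  rw [rotX]
  ring

theorem rotmy (θ : V → ℝ) (φ : ℝ) :
    my (fun x => θ x + φ) = Real.sin φ * mx θ + Real.cos φ * my θ := by
  unfold mx my
  rw [rotY]
  ring

theorem nf_le (f : V → ℝ) (θ : V → ℝ) :
    Nf f θ ≤ (Fintype.card V : ℝ) * ∑ x, f x ^ 2 := by
  have h1 := Finset.sum_mul_sq_le_sq_mul_sq Finset.univ f (fun x => Real.cos (θ x))
  have h2 := Finset.sum_mul_sq_le_sq_mul_sq Finset.univ f (fun x => Real.sin (θ x))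
  have h3 : (∑ x, Real.cos (θ x) ^ 2) + ∑ x, Real.sin (θ x) ^ 2 = (Fintype.card V : ℝ) := by
    rw [← Finset.sum_add_distrib]
    simp only [Real.cos_sq_add_sin_sq, Finset.sum_const, Finset.card_univ, nsmul_eq_mul, mul_one]
  unfold Nf Xf Yf
  calc _ ≤ (∑ x, f x ^ 2) * (∑ x, Real.cos (θ x) ^ 2) + (∑ x, f x ^ 2) *
        ∑ x, Real.sin (θ x) ^ 2 := add_le_add h1 h2
    _ = (∑ x, f x ^ 2) * ((∑ x, Real.cos (θ x) ^ 2) + ∑ x, Real.sin (θ x) ^ 2) := by ring
    _ = _ := by rw [h3]; ring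

theorem bnds [Nonempty V] (f : V → ℝ) (θ : V → ℝ) :
    0 ≤ r2 θ ∧ r2 θ ≤ 1 ∧ Lf f θ ^ 2 + Tf f θ ^ 2 = r2 θ * Nf f θ ∧
    Nf f θ ≤ (Fintype.card V : ℝ) * ∑ x, f x ^ 2 ∧
    (∑ x, (mx θ * Real.sin (θ x) - my θ * Real.cos (θ x)) ^ 2) ≤
      (Fintype.card V : ℝ) * (r2 θ * (1 - r2 θ)) ∧
    gr r2 θ ≤ 4 / (Fintype.card V : ℝ) * (1 - r2 θ) := by
  have hN : (0 : ℝ) < (Fintype.card V : ℝ) := by exact_mod_cast Fintype.card_pos
  set N : ℝ := (Fintype.card V : ℝ) with hNd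
  have hX : Xf (fun _ : V => (1 : ℝ)) θ = N * mx θ := by
    unfold mx
    rw [← hNd]
    field_simp
  have hY : Yf (fun _ : V => (1 : ℝ)) θ = N * my θ := by
    unfold my
    rw [← hNd]
    field_simp
  have hX' : ∑ x, Real.cos (θ x) = N * mx θ := by
    rw [← hX]
    unfold Xf
    simp only [one_mul]
  have hY' : ∑ x, Real.sin (θ x) = N * my θ := by
    rw [← hY]
    unfold Yf
    simp only [one_mul]
  have h0 : 0 ≤ r2 θ := by unfold r2; positivity
  have h1 : r2 θ ≤ 1 := by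
    have h2 := nf_le (fun _ : V => (1 : ℝ)) θ
    have h3 : Nf (fun _ : V => (1 : ℝ)) θ = N ^ 2 * r2 θ := by
      unfold Nf r2
      rw [hX, hY]
      ring
    rw [h3] at h2
    simp only [one_pow, Finset.sum_const, Finset.card_univ, nsmul_eq_mul, mul_one] at h2
    rw [← hNd, ← pow_two] at h2
    have h4 : 0 < N ^ 2 := by positivity
    nlinarith
  have h5 : (∑ x, (mx θ * Real.sin (θ x) - my θ * Real.cos (θ x)) ^ 2) ≤ N * (r2 θ * (1 - r2 θ)) := by
    have e1 : (∑ x, (mx θ * Real.sin (θ x) - my θ * Real.cos (θ x)) ^ 2) +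
        ∑ x, (mx θ * Real.cos (θ x) + my θ * Real.sin (θ x)) ^ 2 = N * r2 θ := by
      rw [← Finset.sum_add_distrib]
      have : ∀ x, (mx θ * Real.sin (θ x) - my θ * Real.cos (θ x)) ^ 2 +
          (mx θ * Real.cos (θ x) + my θ * Real.sin (θ x)) ^ 2 = r2 θ := by
        intro x
        unfold r2
        linear_combination (mx θ ^ 2 + my θ ^ 2) * Real.sin_sq_add_cos_sq (θ x)
      simp only [this, Finset.sum_const, Finset.card_univ, nsmul_eq_mul]
      rw [hNd]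
    have e2 : ∑ x, (mx θ * Real.cos (θ x) + my θ * Real.sin (θ x)) = N * r2 θ := by
      rw [Finset.sum_add_distrib, ← Finset.mul_sum, ← Finset.mul_sum, hX', hY']
      unfold r2
      ring
    have e3 : (N * r2 θ) ^ 2 ≤ N * ∑ x, (mx θ * Real.cos (θ x) + my θ * Real.sin (θ x)) ^ 2 := by
      have h6 := Finset.sum_mul_sq_le_sq_mul_sq Finset.univ (fun _ : V => (1 : ℝ))
        (fun x => mx θ * Real.cos (θ x) + my θ * Real.sin (θ x))
      simp only [one_mul, one_pow, Finset.sum_const, Finset.card_univ, nsmul_eq_mul,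
        mul_one] at h6
      rwa [e2] at h6
    have e4 : N * r2 θ ^ 2 ≤ ∑ x, (mx θ * Real.cos (θ x) + my θ * Real.sin (θ x)) ^ 2 := by
      have : N * (N * r2 θ ^ 2) ≤ N * ∑ x, (mx θ * Real.cos (θ x) + my θ * Real.sin (θ x)) ^ 2 := by
        calc N * (N * r2 θ ^ 2) = (N * r2 θ) ^ 2 := by ring
          _ ≤ _ := e3
      exact le_of_mul_le_mul_left this hN
    have e5 : N * (r2 θ * (1 - r2 θ)) = N * r2 θ - N * r2 θ ^ 2 := by ring
    rw [e5]
    linarith
  refine ⟨h0, h1, ?_, nf_le f θ, h5, ?_⟩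
  · unfold Lf Tf r2 Nf
    ring
  · have e1 : gr r2 θ = 4 / N ^ 2 * ∑ x, (mx θ * Real.sin (θ x) - my θ * Real.cos (θ x)) ^ 2 := by
      unfold gr
      rw [Finset.mul_sum]
      refine Finset.sum_congr rfl fun x _ => ?_
      have : pd x r2 θ = 2 / N * (my θ * Real.cos (θ x) - mx θ * Real.sin (θ x)) :=
        (dr2 x θ).deriv
      rw [this]
      ring
    rw [e1]
    calc 4 / N ^ 2 * ∑ x, (mx θ * Real.sin (θ x) - my θ * Real.cos (θ x)) ^ 2 ≤
        4 / N ^ 2 * (N * (r2 θ * (1 - r2 θ))) := by gcongr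
      _ = 4 / N * (r2 θ * (1 - r2 θ)) := by field_simp
      _ ≤ 4 / N * (1 * (1 - r2 θ)) := by
          have : 0 ≤ 1 - r2 θ := by linarith
          gcongr
      _ = _ := by rw [one_mul]

end

theorem main : S_TPB where
  cont := fun R hR => (key R hR).1
  bdd := fun R hR => (key R hR).2.1
  hasd := fun R hR x θ => hasd R hR x θ
  pdmem := fun R hR x => pdmem R hR x
  grmem := by
    intro V _ _ R hR
    have e : gr R = ∑ x, (pd x R) ^ 2 := by
      funext θ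
      simp only [gr, Finset.sum_apply, Pi.pow_apply]
    rw [e]
    exact (TP V).sum_mem fun x _ => (TP V).pow_mem (pdmem R hR x) 2
  pdmul := by
    intro V _ _ R S hR hS x θ
    have h := (hasd R hR x θ).mul (hasd S hS x θ)
    rw [at0'] at h
    exact h.deriv
  pdadd := by
    intro V _ _ R S hR hS x θ
    exact ((hasd R hR x θ).add (hasd S hS x θ)).deriv
  mem := by
    intro V _ _ f
    have a := X_mem f
    have b := Y_mem f
    have c := mx_mem (V := V)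
    have d := my_mem (V := V)
    exact ⟨a, b, c, d, (TP V).add_mem ((TP V).pow_mem c 2) ((TP V).pow_mem d 2),
      (TP V).add_mem ((TP V).pow_mem a 2) ((TP V).pow_mem b 2),
      (TP V).add_mem ((TP V).mul_mem c a) ((TP V).mul_mem d b),
      (TP V).sub_mem ((TP V).mul_mem c b) ((TP V).mul_mem d a)⟩
  pdX := fun f x θ => ⟨(dX f x θ).deriv, (dY f x θ).deriv⟩
  pdm := fun x θ => ⟨(dmx x θ).deriv, (dmy x θ).deriv, (dr2 x θ).deriv⟩
  rot := by
    intro V _ _ f θ φ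
    have h := Real.sin_sq_add_cos_sq φ
    refine ⟨rotX f θ φ, rotY f θ φ, rotmx θ φ, rotmy θ φ, ?_, ?_, ?_, ?_⟩
    · unfold r2
      rw [rotmx, rotmy]
      linear_combination (mx θ ^ 2 + my θ ^ 2) * h
    · unfold Nf
      rw [rotX, rotY]
      linear_combination (Xf f θ ^ 2 + Yf f θ ^ 2) * h
    · unfold Lf
      rw [rotX, rotY, rotmx, rotmy]
      linear_combination (mx θ * Xf f θ + my θ * Yf f θ) * h
    · unfold Tf
      rw [rotX, rotY, rotmx, rotmy]
      linear_combination (mx θ * Yf f θ - my θ * Xf f θ) * h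
  bounds := fun f θ => bnds f θ

end Pool.Agent.N457.QLT
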