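import Pool.Agent.N502.TM.Stm

/-!
Project TM, part KER: scaling of the kernel.
-/

set_option autoImplicit false

namespace Pool.Agent.N457.TMK

open MeasureTheory Set Filter Topology Pool.Agent.N502.TM
open scoped ENNReal Real

/-- the integrand -/
noncomputable def G (d : ℕ) (x s : ℝ) : ℝ :=
  s ^ (-(1 / 2) : ℝ) * Real.exp (-x * s) *
    ((4 * π * s) ^ (-(d : ℝ) / 2) * Real.exp (-1 / (4 * s)))

/-- the scaled kernel -/
noncomputable def psi (d : ℕ) (x : ℝ) : ℝ≥0∞ := ∫⁻ s in Ioi (0 : ℝ), ENNReal.ofReal (G d x s)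

theorem G_meas (d : ℕ) (x : ℝ) : Measurable fun s => ENNReal.ofReal (G d x s) := by
  unfold G
  fun_prop

theorem G_pos (d : ℕ) (x : ℝ) {s : ℝ} (hs : 0 < s) : 0 < G d x s := by
  unfold G
  have := Real.pi_pos
  positivity

theorem G_anti (d : ℕ) {x y s : ℝ} (h : x ≤ y) (hs : 0 < s) : G d y s ≤ G d x s := by
  unfold G
  have := Real.pi_pos
  have h1 : Real.exp (-y * s) ≤ Real.exp (-x * s) := by
    rw [Real.exp_le_exp]
    nlinarith
  gcongr

theorem G_zero_le (d : ℕ) {s : ℝ} (hs : 0 < s) :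
    G d 0 s ≤ s ^ (-((d : ℝ) + 1) / 2) * Real.exp (-1 / (4 * s)) := by
  have hπ := Real.pi_gt_three
  unfold G
  have h1 : (4 * π * s) ^ (-(d : ℝ) / 2) ≤ s ^ (-(d : ℝ) / 2) := by
    apply Real.rpow_le_rpow_of_nonpos hs
    · nlinarith
    · have : (0 : ℝ) ≤ d := Nat.cast_nonneg d
      linarith
  have h2 : s ^ (-((d : ℝ) + 1) / 2) = s ^ (-(1 / 2) : ℝ) * s ^ (-(d : ℝ) / 2) := by
    rw [← Real.rpow_add hs]
    congr 1
    ring
  rw [h2, neg_zero, zero_mul, Real.exp_zero, mul_one, mul_assoc (s ^ (-(1 / 2) : ℝ))]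
  have h3 : 0 < s ^ (-(1 / 2) : ℝ) := Real.rpow_pos_of_pos hs _
  exact mul_le_mul_of_nonneg_left
    (mul_le_mul_of_nonneg_right h1 (Real.exp_pos _).le) h3.le

theorem small (d : ℕ) (hd : 2 ≤ d) {s : ℝ} (hs : 0 < s) (h1 : s ≤ 1) :
    G d 0 s ≤ (d.factorial : ℝ) * 4 ^ d := by
  refine (G_zero_le d hs).trans ?_
  have hy : 0 < 1 / (4 * s) := by positivity
  have h2 := Real.pow_div_factorial_le_exp (1 / (4 * s)) hy.le d
  have h3 : Real.exp (-1 / (4 * s)) ≤ (d.factorial : ℝ) * (4 * s) ^ d := by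
    rw [neg_div, Real.exp_neg, inv_le_comm₀ (Real.exp_pos _) (by positivity)]
    refine le_trans (le_of_eq ?_) h2
    rw [one_div, inv_pow, mul_inv]
    ring
  have h4 : s ^ (-((d : ℝ) + 1) / 2) * s ^ d ≤ 1 := by
    rw [← Real.rpow_natCast, ← Real.rpow_add hs]
    apply Real.rpow_le_one hs.le h1
    have : (2 : ℝ) ≤ d := by exact_mod_cast hd
    linarith
  calc s ^ (-((d : ℝ) + 1) / 2) * Real.exp (-1 / (4 * s)) ≤
      s ^ (-((d : ℝ) + 1) / 2) * ((d.factorial : ℝ) * (4 * s) ^ d) := by gcongr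
    _ = (d.factorial : ℝ) * 4 ^ d * (s ^ (-((d : ℝ) + 1) / 2) * s ^ d) := by
        rw [mul_pow]; ring
    _ ≤ (d.factorial : ℝ) * 4 ^ d * 1 := by gcongr
    _ = _ := mul_one _

theorem large (d : ℕ) (hd : 2 ≤ d) {s : ℝ} (h1 : 1 < s) : G d 0 s ≤ s ^ (-(3 / 2) : ℝ) := by
  have hs : 0 < s := by linarith
  refine (G_zero_le d hs).trans ?_
  have h2 : Real.exp (-1 / (4 * s)) ≤ 1 := by
    rw [Real.exp_le_one_iff]
    exact div_nonpos_of_nonpos_of_nonneg (by norm_num) (by positivity)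
  have h3 : s ^ (-((d : ℝ) + 1) / 2) ≤ s ^ (-(3 / 2) : ℝ) := by
    apply Real.rpow_le_rpow_of_exponent_le h1.le
    have : (2 : ℝ) ≤ d := by exact_mod_cast hd
    linarith
  calc s ^ (-((d : ℝ) + 1) / 2) * Real.exp (-1 / (4 * s)) ≤ s ^ (-(3 / 2) : ℝ) * 1 := by gcongr
    _ = _ := mul_one _

theorem psi_zero_fin (d : ℕ) (hd : 2 ≤ d) : psi d 0 ≠ ∞ := by
  have hU : Ioi (0 : ℝ) = Ioc 0 1 ∪ Ioi 1 := (Ioc_union_Ioi_eq_Ioi zero_le_one).symm
  have h1 : ∫⁻ s in Ioc (0 : ℝ) 1, ENNReal.ofReal (G d 0 s) < ∞ := by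
    calc ∫⁻ s in Ioc (0 : ℝ) 1, ENNReal.ofReal (G d 0 s) ≤
        ∫⁻ _s in Ioc (0 : ℝ) 1, ENNReal.ofReal ((d.factorial : ℝ) * 4 ^ d) :=
          setLIntegral_mono' measurableSet_Ioc fun s hs =>
            ENNReal.ofReal_le_ofReal (small d hd hs.1 hs.2)
      _ < ∞ := by
          rw [setLIntegral_const, Real.volume_Ioc]
          exact ENNReal.mul_lt_top ENNReal.ofReal_lt_top ENNReal.ofReal_lt_top
  have h2 : ∫⁻ s in Ioi (1 : ℝ), ENNReal.ofReal (G d 0 s) < ∞ := by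
    calc ∫⁻ s in Ioi (1 : ℝ), ENNReal.ofReal (G d 0 s) ≤
        ∫⁻ s in Ioi (1 : ℝ), ENNReal.ofReal (s ^ (-(3 / 2) : ℝ)) :=
          setLIntegral_mono' measurableSet_Ioi fun s hs =>
            ENNReal.ofReal_le_ofReal (large d hd hs)
      _ < ∞ := (integrableOn_Ioi_rpow_of_lt (by norm_num) one_pos).lintegral_lt_top
  unfold psi
  rw [hU]
  exact ((lintegral_union_le _ _ _).trans_lt (ENNReal.add_lt_top.2 ⟨h1, h2⟩)).ne

theorem psi_ne_zero (d : ℕ) (x : ℝ) : psi d x ≠ 0 := by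
  intro h
  unfold psi at h
  rw [lintegral_eq_zero_iff (G_meas d x)] at h
  have h2 : ∀ᵐ s ∂(volume.restrict (Ioi (0 : ℝ))), False := by
    filter_upwards [h, ae_restrict_mem measurableSet_Ioi] with s hs hs2
    have := ENNReal.ofReal_pos.2 (G_pos d x hs2)
    rw [hs] at this
    exact lt_irrefl _ this
  rw [ae_iff] at h2
  simp at h2

theorem psi_anti (d : ℕ) {x y : ℝ} (h : x ≤ y) : psi d y ≤ psi d x :=
  setLIntegral_mono' measurableSet_Ioi fun s hs => ENNReal.ofReal_le_ofReal (G_anti d h hs)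

theorem main : S_KER := by
  intro d hd
  refine ⟨psi d, fun x hx => ⟨psi_ne_zero d x, ?_⟩, fun x _ y _ h => psi_anti d h, ?_, ?_⟩
  · exact ((psi_anti d hx).trans_lt (psi_zero_fin d hd).lt_top).ne
  · unfold psi
    refine tendsto_lintegral_filter_of_dominated_convergence
      (fun s => ENNReal.ofReal (G d 0 s)) (Eventually.of_forall fun x => G_meas d x) ?_
      (psi_zero_fin d hd) ?_
    · filter_upwards [self_mem_nhdsWithin] with x hx
      filter_upwards [ae_restrict_mem measurableSet_Ioi] with s hs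
      exact ENNReal.ofReal_le_ofReal (G_anti d (le_of_lt hx) hs)
    · refine Eventually.of_forall fun s => ?_
      have hc : Continuous fun x : ℝ => ENNReal.ofReal (G d x s) := by
        unfold G
        exact ENNReal.continuous_ofReal.comp (by fun_prop)
      exact (hc.tendsto 0).mono_left nhdsWithin_le_nhds
  · intro l z hl hz
    have hρ : 0 < ‖z‖ := norm_pos_iff.2 hz
    set ρ : ℝ := ‖z‖ with hρd
    have hρ2 : 0 < ρ ^ 2 := by positivity
    have hπ := Real.pi_pos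
    unfold kern
    have himg : (fun u : ℝ => ρ ^ 2 * u) '' Ioi 0 = Ioi 0 := by
      rw [image_mul_left_Ioi hρ2, mul_zero]
    have hder : ∀ u ∈ Ioi (0 : ℝ), HasDerivWithinAt (fun u : ℝ => ρ ^ 2 * u) (ρ ^ 2) (Ioi 0) u := by
      intro u _
      simpa using ((hasDerivAt_id u).const_mul (ρ ^ 2)).hasDerivWithinAt
    have hinj : InjOn (fun u : ℝ => ρ ^ 2 * u) (Ioi 0) :=
      fun a _ b _ hab => mul_left_cancel₀ hρ2.ne' hab
    have hcv := lintegral_image_eq_lintegral_abs_deriv_mul measurableSet_Ioi hder hinj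
      (fun s => ENNReal.ofReal (s ^ (-(1 / 2) : ℝ) * Real.exp (-l * s) * heat d s z))
    rw [himg] at hcv
    rw [hcv]
    unfold psi
    rw [← lintegral_const_mul' _ _ ENNReal.ofReal_ne_top]
    refine setLIntegral_congr_fun measurableSet_Ioi fun u hu => ?_
    have hu0 : 0 < u := hu
    rw [← ENNReal.ofReal_mul (abs_nonneg _), ← ENNReal.ofReal_mul (by positivity), abs_of_pos hρ2]
    congr 1
    unfold heat G
    rw [← hρd]
    have e1 : (ρ ^ 2 * u) ^ (-(1 / 2) : ℝ) = ρ ^ (-1 : ℝ) * u ^ (-(1 / 2) : ℝ) := by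
      rw [Real.mul_rpow hρ2.le hu0.le, ← Real.rpow_natCast, ← Real.rpow_mul hρ.le]
      norm_num
    have e2 : (4 * π * (ρ ^ 2 * u)) ^ (-(d : ℝ) / 2) = ρ ^ (-(d : ℝ)) *
        (4 * π * u) ^ (-(d : ℝ) / 2) := by
      rw [show 4 * π * (ρ ^ 2 * u) = ρ ^ 2 * (4 * π * u) by ring,
        Real.mul_rpow hρ2.le (by positivity), ← Real.rpow_natCast, ← Real.rpow_mul hρ.le]
      congr 2
      push_cast
      ring
    have e3 : -ρ ^ 2 / (4 * (ρ ^ 2 * u)) = -1 / (4 * u) := by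
      field_simp
    have e4 : -l * (ρ ^ 2 * u) = -(l * ρ ^ 2) * u := by ring
    have e5 : ρ ^ (-((d : ℝ) - 1)) = ρ ^ 2 * (ρ ^ (-1 : ℝ) * ρ ^ (-(d : ℝ))) := by
      rw [← Real.rpow_natCast, ← Real.rpow_add hρ, ← Real.rpow_add hρ]
      congr 1
      push_cast
      ring
    rw [e1, e2, e3, e4, e5]
    ring

end Pool.Agent.N457.TMK
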